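import Pool.Agent.Helper8.E.Assemble

/-!
The normalised action of the element of the Hodge structure lies in the Lie algebra of symmetries.
-/

namespace Pool.Agent.Helper8.E

open Module NumberField LieAlgebra Pool.Agent.Helper7 Pool.Agent.Helper24 Pool.Agent.Helper36 Matrix
open Pool.Agent.GPC (Emb)
open Pool.Agent.Helper8.D (Sym QF ent symI SS vl vl_inv cS cS_br brS sym_one rep rep_or
  not_rep_conj)

attribute [local instance 100] LieRing.ofAssociativeRing

set_option linter.unusedSectionVars false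

section single

variable {κ : Type} [Fintype κ] [DecidableEq κ] {ϖ : ℂ} {P : PData κ ϖ} {K : Type} [Field K]
  [NumberField K]

lemma tw_id {r : ℕ} (F : UF P K r) (hr : 0 < r) (σ : K →+* ℂ) :
    tw F σ (1 : Module.End ℂ (κ → ℂ)) = 1 := by
  have h1 := Pool.Agent.Helper8.D.ent_trace F hr σ 1
  rw [Fac5.ent_one, Matrix.trace_one, Fintype.card_fin] at h1
  have h2 : (r : ℂ) ≠ 0 := by exact_mod_cast hr.ne'
  exact mul_left_cancel₀ h2 (by rw [← h1, mul_one])

end single

section family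

variable {I : Type} [Fintype I] [DecidableEq I] (n : I → ℕ)
  {κ : I → Type} [∀ i, Fintype (κ i)] [∀ i, DecidableEq (κ i)] {ϖ : ℂ}
  (P : ∀ i, PData (κ i) ϖ)
  {K : I → Type} [∀ i, Field (K i)] [∀ i, NumberField (K i)]
  {k : ℕ} (α : MultilinearMap ℂ (fun _ : Fin (2 * k) => HW κ n) ℂ)
  (F : ∀ i, Fac5 (P i) (K i))

/-- the normalised action at a place -/
noncomputable def nrA (t : Emb K) (X : GG κ) (v : κ t.1 → ℂ) : κ t.1 → ℂ :=
  X.1 t.1 (proj (FU P F t.1).ρ t.2 v) - ch P (FU P F) t X • proj (FU P F t.1).ρ t.2 v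

lemma nrA_add (t : Emb K) (X Y : GG κ) (v : κ t.1 → ℂ) :
    nrA P F t (X + Y) v = nrA P F t X v + nrA P F t Y v := by
  have h1 : (X + Y).1 t.1 (proj (FU P F t.1).ρ t.2 v) = X.1 t.1 (proj (FU P F t.1).ρ t.2 v) +
    Y.1 t.1 (proj (FU P F t.1).ρ t.2 v) := rfl
  rw [nrA, nrA, nrA, h1, ch_add, add_smul]
  abel

lemma nrA_sub (t : Emb K) (X Y : GG κ) (v : κ t.1 → ℂ) :
    nrA P F t (X - Y) v = nrA P F t X v - nrA P F t Y v := by
  have h1 := nrA_add P F t (X - Y) Y v
  rw [sub_add_cancel] at h1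
  rw [h1, add_sub_cancel_right]

lemma nrA_zero (t : Emb K) (v : κ t.1 → ℂ) : nrA P F t (0 : GG κ) v = 0 := by
  have h1 := nrA_sub P F t (0 : GG κ) 0 v
  rw [sub_zero, sub_self] at h1
  exact h1

lemma nrA_sum {J : Type*} (s : Finset J) (f : J → GG κ) (t : Emb K) (v : κ t.1 → ℂ) :
    nrA P F t (∑ j ∈ s, f j) v = ∑ j ∈ s, nrA P F t (f j) v := by
  classical
  induction s using Finset.induction_on with
  | empty => rw [Finset.sum_empty, Finset.sum_empty, nrA_zero]
  | insert a s ha ih => rw [Finset.sum_insert ha, Finset.sum_insert ha, nrA_add, ih]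

lemma phi_ext {X Y : GG κ} (h : ∀ t v, nrA P F t X v = nrA P F t Y v) :
    phi P (FU P F) X = phi P (FU P F) Y := by
  apply LinearMap.ext
  intro v
  funext i
  rw [phi_apply, phi_apply, sum_proj_apply (FU P F i).ρ (v i), map_sum, map_sum, map_sum,
    map_sum, ← Finset.sum_sub_distrib, ← Finset.sum_sub_distrib]
  refine Finset.sum_congr rfl fun σ _ => ?_
  rw [dd_proj, dd_proj]
  exact h ⟨i, σ⟩ (v i)

/-- at places of kind `T` the normalised action is zero -/
lemma nrA_T (t : Emb K) (ht : (F t.1).isT) (X : GG κ) {c : ℂ} (hX : Sym (P t.1) (X.1 t.1) c)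
    (v : κ t.1 → ℂ) : nrA P F t X v = 0 := by
  obtain ⟨i, σ⟩ := t
  have key : ∀ f : Fac5 (P i) (K i), f.isT → X.1 i (proj f.toUF.ρ σ v) -
      tw f.toUF σ (X.1 i) • proj f.toUF.ρ σ v = 0 := by
    intro f hf
    cases f with
    | S F' h' => exact hf.elim
    | W F' h' => exact hf.elim
    | Q F' => exact hf.elim
    | R F' => exact hf.elim
    | T F' =>
      show X.1 i (proj F'.ρ σ v) - tw F' σ (X.1 i) • proj F'.ρ σ v = 0
      rw [F'.proj_eq, Fin.sum_univ_one, map_smul,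
        act_one F' _ (hX.commF F') σ, smul_comm, sub_self]
  exact key (F i) ht

/-- normalised actions at conjugate places -/
lemma nrA_conj (t : Emb K) (X Y : GG κ)
    (hX : Sym (P t.1) (X.1 t.1) X.2) (hY : Sym (P t.1) (Y.1 t.1) Y.2)
    (h : ∀ v, nrA P F t X v = nrA P F t Y v) (v : κ t.1 → ℂ) :
    nrA P F (conjT t) X v = nrA P F (conjT t) Y v := by
  obtain ⟨i, σ⟩ := t
  have h0 : ∀ v, X.1 i (proj (FU P F i).ρ σ v) -
      tw (FU P F i) σ (X.1 i) • proj (FU P F i).ρ σ v =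
      Y.1 i (proj (FU P F i).ρ σ v) - tw (FU P F i) σ (Y.1 i) • proj (FU P F i).ρ σ v := h
  have h1 := conj_place (FU P F i) σ hX hY
    (tw (FU P F i) σ (X.1 i) - tw (FU P F i) σ (Y.1 i)) (fun v => by
      have h2 := h0 v
      rw [sub_smul, sub_eq_sub_iff_add_eq_add]
      rw [sub_eq_sub_iff_add_eq_add] at h2
      rw [h2, add_comm]) v
  have cX : tw (FU P F i) (ComplexEmbedding.conjugate σ) (X.1 i) =
      X.2 - tw (FU P F i) σ (X.1 i) := by
    have := tw_conj (FU P F i) (F i).rk_pos (X.1 i) (hX.commF _) X.2 hX.pol σ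
    linear_combination this
  have cY : tw (FU P F i) (ComplexEmbedding.conjugate σ) (Y.1 i) =
      Y.2 - tw (FU P F i) σ (Y.1 i) := by
    have := tw_conj (FU P F i) (F i).rk_pos (Y.1 i) (hY.commF _) Y.2 hY.pol σ
    linear_combination this
  show X.1 i (proj (FU P F i).ρ (ComplexEmbedding.conjugate σ) v) -
      tw (FU P F i) (ComplexEmbedding.conjugate σ) (X.1 i) •
        proj (FU P F i).ρ (ComplexEmbedding.conjugate σ) v =
    Y.1 i (proj (FU P F i).ρ (ComplexEmbedding.conjugate σ) v) -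
      tw (FU P F i) (ComplexEmbedding.conjugate σ) (Y.1 i) •
        proj (FU P F i).ρ (ComplexEmbedding.conjugate σ) v
  rw [cX, cY]
  obtain ⟨z, hz⟩ : ∃ z, z = proj (FU P F i).ρ (ComplexEmbedding.conjugate σ) v := ⟨_, rfl⟩
  rw [← hz] at h1 ⊢
  rw [sub_eq_iff_eq_add] at h1
  rw [h1]
  module

variable (hϖ : ϖ ≠ 0)
  (hB : ∀ v : Fin (2 * k) → HW κ n, (∀ r, IsRatP n P (v r)) → ∃ q : ℚ, α v = ϖ ^ k * q)
  (hA : ∀ v : Fin (2 * k) → HW κ n, (∀ r i m j, IsAlgebraic ℚ (v r i m j)) →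
      IsAlgebraic ℚ (α v))

/-- the places of kinds `S`, `W` and `Q`, one for each pair of conjugate places -/
abbrev TT : Type _ := {t : Emb K × Fin 2 // ((F t.1.1).isS ∧ t.2 = 0) ∨
  ((F t.1.1).isW ∧ t.2 = 0 ∧ rep t.1) ∨ ((F t.1.1).isQ ∧ rep t.1)}

omit [Fintype I] [DecidableEq I] in
lemma TT_kind (t : TT P F) : (F t.1.1.1).isP := by
  rcases t.2 with h | h | h
  · exact (F t.1.1.1).isP_of_S h.1
  · exact (F t.1.1.1).isP_of_W h.1
  · exact (F t.1.1.1).isP_of_Q h.1

include hϖ hB hA in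
/-- the part of kinds `S`, `W` and `Q` -/
theorem exists_P (h : GG κ) (hsym : ∀ i, Sym (P i) (h.1 i) h.2) (h2 : h.2 = 1)
    (hcx : ∀ i, (F i).isW ∨ (F i).isQ → ∀ σ : K i →+* ℂ, ComplexEmbedding.conjugate σ ≠ σ)
    (hSS : ∀ s s' : Emb K, (F s.1).isS → (F s'.1).isS → ∀ Q : Matrix (Fin 2) (Fin 2) ℂ,
      Q.det ≠ 0 → (∀ X, IsInv n P α X → AA P F s 0 X * Q = Q * AA P F s' 0 X) →
      AA P F s 0 h * Q = Q * AA P F s' 0 h)
    (hQ : ∀ (s : Emb K) (ε : Fin 2) (t' : Emb K × Fin 2), (F s.1).isQ →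
      (F t'.1.1).isP → Lk n P α F (s, ε) t' → t'.1 = s ∨ t'.1 = conjT s)
    (hW : ∀ (s : Emb K) (t' : Emb K × Fin 2), (F s.1).isW → (F t'.1.1).isS ∨ (F t'.1.1).isW →
      Lk n P α F (s, 0) t' → t'.1 = s ∨ t'.1 = conjT s) :
    ∃ X, IsInv n P α X ∧ X.2 = 0 ∧ ∀ t : TT P F, AA P F t.1.1 t.1.2 X =
      AA P F t.1.1 t.1.2 h - (1 / 2 : ℂ) • 1 := by
  classical
  -- the elements given by Goursat's lemma
  have hG : ∀ t : TT P F, ∃ X : SS n P α, AS n P α F t.1 X =
      AA P F t.1.1 t.1.2 h - (1 / 2 : ℂ) • 1 ∧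
      (∀ t' : TT P F, ¬ Lk n P α F t.1 t'.1 → AS n P α F t'.1 X = 0) ∧ cS n P α X = 0 := by
    intro t
    obtain ⟨X, hX1, hX2, hX3⟩ := goursat (brS n P α) (fun t : TT P F => AS n P α F t.1)
      (cS n P α) (fun _ : Unit => cS n P α) (fun t => AS_br n P α F t.1)
      (fun t => AS_tr n P α F t.1) (fun t Z hZ => AS_surj n P α F hϖ hB hA t.1 (TT_kind P F t) Z hZ)
      (fun _ X Y => cS_br n P α X Y) t (AA P F t.1.1 t.1.2 h - (1 / 2 : ℂ) • 1) (by
        rw [Matrix.trace_sub, AA_tr P F _ _ hsym, h2, Matrix.trace_smul, Matrix.trace_one]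
        simp)
    exact ⟨X, hX1, fun t' ht' => hX2 t' ht', hX3 ()⟩
  choose X hX1 hX2 hX3 using hG
  -- linked places outside of kind `S`
  have hpl : ∀ t t' : TT P F, Lk n P α F t.1 t'.1 → ¬ ((F t.1.1.1).isS ∧ (F t'.1.1.1).isS) →
      t'.1.1 = t.1.1 := by
    intro t t' htt hns
    have hsame : t'.1.1 = t.1.1 ∨ t'.1.1 = conjT t.1.1 := by
      have hsym2 : t.1.1 = t'.1.1 ∨ t.1.1 = conjT t'.1.1 →
          t'.1.1 = t.1.1 ∨ t'.1.1 = conjT t.1.1 := by
        rintro (h3 | h3)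
        · exact Or.inl h3.symm
        · right; rw [h3, conjT_conjT]
      rcases t.2 with ht | ht | ht
      · rcases t'.2 with ht' | ht' | ht'
        · exact absurd ⟨ht.1, ht'.1⟩ hns
        · refine hsym2 (hW t'.1.1 t.1 ht'.1 (Or.inl ht.1) ?_)
          have e : t'.1 = (t'.1.1, 0) := Prod.ext rfl ht'.2.1
          rw [← e]
          exact htt.symm
        · exact hsym2 (hQ t'.1.1 t'.1.2 t.1 ht'.1 ((F t.1.1.1).isP_of_S ht.1) htt.symm)
      · rcases t'.2 with ht' | ht' | ht'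
        · refine hW t.1.1 t'.1 ht.1 (Or.inl ht'.1) ?_
          have e : t.1 = (t.1.1, 0) := Prod.ext rfl ht.2.1
          rw [← e]
          exact htt
        · refine hW t.1.1 t'.1 ht.1 (Or.inr ht'.1) ?_
          have e : t.1 = (t.1.1, 0) := Prod.ext rfl ht.2.1
          rw [← e]
          exact htt
        · exact hsym2 (hQ t'.1.1 t'.1.2 t.1 ht'.1 ((F t.1.1.1).isP_of_W ht.1) htt.symm)
      · exact hQ t.1.1 t.1.2 t'.1 ht.1 (TT_kind P F t') htt
    rcases hsame with h3 | h3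
    · exact h3
    · exfalso
      have hr : ∀ t : TT P F, ¬ (F t.1.1.1).isS → rep t.1.1 ∧
          ((F t.1.1.1).isW ∨ (F t.1.1.1).isQ) := by
        intro t ht
        rcases t.2 with h4 | h4 | h4
        · exact absurd h4.1 ht
        · exact ⟨h4.2.2, Or.inl h4.1⟩
        · exact ⟨h4.2, Or.inr h4.1⟩
      have hSS' : (F t'.1.1.1).isS ↔ (F t.1.1.1).isS := by rw [h3]; exact Iff.rfl
      have h4 : ¬ (F t.1.1.1).isS := fun h => hns ⟨h, hSS'.mpr h⟩
      have h5 : ¬ (F t'.1.1.1).isS := fun h => h4 (hSS'.mp h)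
      obtain ⟨r1, k1⟩ := hr t h4
      obtain ⟨r2, -⟩ := hr t' h5
      exact not_rep_conj t.1.1 r1 (hcx _ k1 _) (h3 ▸ r2)
  -- compatibility for linked pieces
  have hcomp : ∀ t t' : TT P F, Lk n P α F t.1 t'.1 → AS n P α F t'.1 (X t) =
      AA P F t'.1.1 t'.1.2 h - (1 / 2 : ℂ) • 1 := by
    intro t t' htt
    by_cases hst : (F t.1.1.1).isS ∧ (F t'.1.1.1).isS
    · obtain ⟨hs1, hs2⟩ := hst
      have ht : t.1.2 = 0 := by
        rcases t.2 with h4 | h4 | h4
        · exact h4.2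
        · exact h4.2.1
        · exact ((F t.1.1.1).not_SQ hs1 h4.1).elim
      have ht' : t'.1.2 = 0 := by
        rcases t'.2 with h4 | h4 | h4
        · exact h4.2
        · exact h4.2.1
        · exact ((F t'.1.1.1).not_SQ hs2 h4.1).elim
      obtain ⟨Q, hQd, hQX⟩ := (lk_iff n P α F t.1 t'.1).mp htt
      have hu : IsUnit Q.det := isUnit_iff_ne_zero.mpr hQd
      have e1 := hQX _ (vl_inv n P α (X t))
      have e2 := hSS t.1.1 t'.1.1 hs1 hs2 Q hQd (fun Y hY => by
        have := hQX Y hY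
        rw [ht, ht'] at this
        exact this)
      have e3 : AA P F t.1.1 t.1.2 (vl n P α (X t)) =
        AA P F t.1.1 t.1.2 h - (1 / 2 : ℂ) • 1 := hX1 t
      rw [e3] at e1
      have e4 : Q * (AA P F t'.1.1 t'.1.2 h - (1 / 2 : ℂ) • 1) =
          Q * AA P F t'.1.1 t'.1.2 (vl n P α (X t)) := by
        rw [← e1, Matrix.mul_sub, Matrix.sub_mul]
        have e5 : AA P F t.1.1 t.1.2 h * Q = Q * AA P F t'.1.1 t'.1.2 h := by
          rw [ht, ht']
          exact e2
        rw [e5]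
        simp
      have e6 := congrArg (fun M => Q⁻¹ * M) e4
      simp only [← Matrix.mul_assoc, Matrix.nonsing_inv_mul _ hu, Matrix.one_mul] at e6
      exact e6.symm
    · have h3 := hpl t t' htt hst
      have h4 : t' = t := by
        apply Subtype.ext
        refine Prod.ext h3 ?_
        by_cases hq : (F t.1.1.1).isQ
        · by_contra hne
          have h5 := AS_not_conj n P α F hϖ hB hA t.1.1 hq
          have h6 : Lk n P α F (t.1.1, t.1.2) (t.1.1, t'.1.2) := by
            have : t'.1 = (t.1.1, t'.1.2) := Prod.ext h3 rfl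
            rw [← this]
            exact htt
          have h7 : ∀ a b : Fin 2, a ≠ b → Lk n P α F (t.1.1, b) (t.1.1, a) → False := by
            intro a b hab hl
            fin_cases a <;> fin_cases b
            · exact hab rfl
            · exact h5 hl.symm
            · exact h5 hl
            · exact hab rfl
          exact h7 _ _ hne h6
        · have hz : ∀ t : TT P F, ¬ (F t.1.1.1).isQ → t.1.2 = 0 := by
            intro t ht
            rcases t.2 with h4 | h4 | h4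
            · exact h4.2
            · exact h4.2.1
            · exact absurd h4.1 ht
          have hq' : ¬ (F t'.1.1.1).isQ := by rw [h3]; exact hq
          rw [hz t hq, hz t' hq']
      subst h4
      exact hX1 t'
  -- the sum over the classes
  let st : Setoid (TT P F) := ⟨fun t t' => Lk n P α F t.1 t'.1, fun t => Lk.refl n P α F t.1,
    fun h => h.symm, fun h h' => h.trans h'⟩
  let Y : SS n P α := ∑ c : Quotient st, X c.out
  refine ⟨vl n P α Y, vl_inv n P α Y, ?_, fun t => ?_⟩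
  · show cS n P α Y = 0
    rw [map_sum]
    exact Finset.sum_eq_zero fun c _ => hX3 _
  · show AS n P α F t.1 Y = _
    rw [map_sum, Finset.sum_eq_single (Quotient.mk st t)]
    · exact hcomp _ _ (Quotient.mk_out (s := st) t)
    · intro c _ hc
      refine hX2 _ _ fun hl => hc ?_
      rw [← Quotient.out_eq c]
      exact Quotient.sound (s := st) hl
    · intro h; exact absurd (Finset.mem_univ _) h

include hϖ hB hA in
/-- the normalised action of `h` is the normalised action of a symmetry -/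
theorem hodge_in (h : GG κ) (hsym : ∀ i, Sym (P i) (h.1 i) h.2) (h2 : h.2 = 1)
    (hcx : ∀ i, (F i).isW ∨ (F i).isQ ∨ (F i).isR → ∀ σ : K i →+* ℂ,
      ComplexEmbedding.conjugate σ ≠ σ)
    (hSS : ∀ s s' : Emb K, (F s.1).isS → (F s'.1).isS → ∀ Q : Matrix (Fin 2) (Fin 2) ℂ,
      Q.det ≠ 0 → (∀ X, IsInv n P α X → AA P F s 0 X * Q = Q * AA P F s' 0 X) →
      AA P F s 0 h * Q = Q * AA P F s' 0 h)
    (hQ : ∀ (s : Emb K) (ε : Fin 2) (t' : Emb K × Fin 2), (F s.1).isQ →
      (F t'.1.1).isP → Lk n P α F (s, ε) t' → t'.1 = s ∨ t'.1 = conjT s)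
    (hW : ∀ (s : Emb K) (t' : Emb K × Fin 2), (F s.1).isW → (F t'.1.1).isS ∨ (F t'.1.1).isW →
      Lk n P α F (s, 0) t' → t'.1 = s ∨ t'.1 = conjT s)
    (hR : ∀ s : Emb K, (F s.1).isR → ∀ Z : Module.End ℂ (κ s.1 → ℂ), Sym (P s.1) Z 0 →
      ∃ X, IsInv n P α X ∧
        (∀ v, nrA P F s X v = Z (proj (FU P F s.1).ρ s.2 v)) ∧
        ∀ t, t ≠ s → t ≠ conjT s → ∀ v, nrA P F t X v = 0) :
    ∃ Y, IsInv n P α Y ∧ phi P (FU P F) Y = phi P (FU P F) h := by
  classical
  obtain ⟨X, hX, hX2, hXt⟩ := exists_P n P α F hϖ hB hA h hsym h2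
    (fun i hi => hcx i (by tauto)) hSS hQ hW
  -- the normalised actions agree at the places of kinds `S`, `W` and `Q`
  have hSQ : ∀ s : Emb K, (F s.1).isS ∨ ((F s.1).isW ∧ rep s) ∨ ((F s.1).isQ ∧ rep s) → ∀ v,
      nrA P F s X v = nrA P F s h v := by
    intro s hs v
    have hs' : (F s.1).isP := by
      rcases hs with hs | hs | hs
      · exact (F s.1).isP_of_S hs
      · exact (F s.1).isP_of_W hs.1
      · exact (F s.1).isP_of_Q hs.1
    have e1 := (F s.1).nr_of_A hs' s.2 (X := X.1 s.1) (Y := h.1 s.1 - (1 / 2 : ℂ) • 1) (c := 0)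
      (by
        have := symI n P α hX s.1
        rwa [hX2] at this) (by
        have h3 := (hsym s.1).add ((sym_one (P := P s.1)).smul (-(1 / 2 : ℂ)))
        rw [h2] at h3
        have h4 : h.1 s.1 + (-(1 / 2 : ℂ)) • (1 : Module.End ℂ (κ s.1 → ℂ)) =
            h.1 s.1 - (1 / 2 : ℂ) • 1 := by module
        have h5 : (1 : ℂ) + -(1 / 2 : ℂ) * 2 = 0 := by norm_num
        rw [h4, h5] at h3
        exact h3) (fun ε => by
        have h3 : ∀ ε' : Fin 2, (((F s.1).isS ∨ (F s.1).isW) ∧ ε' = 0) ∨ (F s.1).isQ →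
            (F s.1).A s.2 ε' (X.1 s.1, 0) =
            (F s.1).A s.2 ε' (h.1 s.1 - (1 / 2 : ℂ) • 1, 0) := by
          intro ε' hε
          have h4 := hXt ⟨(s, ε'), by
            rcases hs with hs | hs | hs
            · rcases hε with hε | hε
              · exact Or.inl ⟨hs, hε.2⟩
              · exact ((F s.1).not_SQ hs hε).elim
            · rcases hε with hε | hε
              · exact Or.inr (Or.inl ⟨hs.1, hε.2, hs.2⟩)
              · exact ((F s.1).not_WQ hs.1 hε).elim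
            · exact Or.inr (Or.inr hs)⟩
          have h5 : AA P F s ε' X = (F s.1).A s.2 ε' (X.1 s.1, 0) := by
            rw [AA_apply, hX2]
          have h6 : AA P F s ε' h = (F s.1).A s.2 ε' (h.1 s.1, 1) := by
            rw [AA_apply, h2]
          have h7 : (h.1 s.1 - (1 / 2 : ℂ) • (1 : Module.End ℂ (κ s.1 → ℂ)), (0 : ℂ)) =
              (h.1 s.1, (1 : ℂ)) - (1 / 2 : ℂ) • ((1 : Module.End ℂ (κ s.1 → ℂ)), (2 : ℂ)) := by
            refine Prod.ext rfl ?_
            show (0 : ℂ) = 1 - (1 / 2 : ℂ) • (2 : ℂ)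
            norm_num
          rw [← h5, h7, map_sub, map_smul, (F s.1).A_one hs', ← h6]
          exact h4
        by_cases hS : (F s.1).isS ∨ (F s.1).isW
        · rw [(F s.1).A_SW hS s.2 ε]
          exact h3 0 (Or.inl ⟨hS, rfl⟩)
        · refine h3 ε (Or.inr ?_)
          have := (F s.1).isP_iff.mp hs'
          tauto) v
    have e2 : tw (F s.1).toUF s.2 (h.1 s.1 - (1 / 2 : ℂ) • 1) =
        tw (F s.1).toUF s.2 (h.1 s.1) - 1 / 2 := by
      rw [map_sub, map_smul, tw_id (F s.1).toUF (F s.1).rk_pos, smul_eq_mul, mul_one]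
    rw [e2] at e1
    show X.1 s.1 (proj (F s.1).toUF.ρ s.2 v) - tw (F s.1).toUF s.2 (X.1 s.1) •
        proj (F s.1).toUF.ρ s.2 v =
      h.1 s.1 (proj (F s.1).toUF.ρ s.2 v) - tw (F s.1).toUF s.2 (h.1 s.1) •
        proj (F s.1).toUF.ρ s.2 v
    rw [e1, LinearMap.sub_apply, LinearMap.smul_apply, Module.End.one_apply]
    module
  -- correction at the places of kind `R`
  have hRs : ∀ s : {s : Emb K // (F s.1).isR ∧ rep s}, ∃ Y, IsInv n P α Y ∧
      (∀ v, nrA P F s.1 Y v = nrA P F s.1 X v - nrA P F s.1 h v) ∧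
      ∀ t, t ≠ s.1 → t ≠ conjT s.1 → ∀ v, nrA P F t Y v = 0 := by
    rintro ⟨s, hs, hs'⟩
    have hh := (F s.1).isH_of_R hs
    have c1 : ch P (FU P F) s X = X.2 / 2 := (F s.1).ch_half hh s.2 (symI n P α hX s.1)
    have c2 : ch P (FU P F) s h = h.2 / 2 := (F s.1).ch_half hh s.2 (hsym s.1)
    obtain ⟨Y, hY, hY1, hY2⟩ := hR s hs (X.1 s.1 + (-1 : ℂ) • h.1 s.1 + (1 / 2 : ℂ) • 1) (by
      have h3 := ((symI n P α hX s.1).add ((hsym s.1).smul (-1))).add
        ((sym_one (P := P s.1)).smul (1 / 2 : ℂ))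
      rw [hX2, h2] at h3
      have h5 : (0 : ℂ) + -1 * 1 + 1 / 2 * 2 = 0 := by norm_num
      rw [h5] at h3
      exact h3)
    refine ⟨Y, hY, fun v => ?_, hY2⟩
    rw [hY1, nrA, nrA, c1, c2, hX2, h2, LinearMap.add_apply, LinearMap.add_apply,
      LinearMap.smul_apply, LinearMap.smul_apply, Module.End.one_apply]
    module
  choose Y hY hY1 hY2 using hRs
  refine ⟨X - ∑ s, Y s, ?_, phi_ext P F fun t v => ?_⟩
  · have h3 : IsInv n P α (∑ s, Y s) := by
      have : ∑ s, Y s ∈ gSub n P α := Submodule.sum_mem _ fun s _ => hY s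
      exact this
    have : X - ∑ s, Y s ∈ gSub n P α := Submodule.sub_mem _ hX h3
    exact this
  · have hXY : ∀ i, Sym (P i) ((X - ∑ s, Y s).1 i) (X - ∑ s, Y s).2 := by
      have h3 : X - ∑ s, Y s ∈ gSub n P α :=
        Submodule.sub_mem _ hX (Submodule.sum_mem _ fun s _ => hY s)
      exact fun i => symI n P α h3 i
    -- away from the places of kind `R` the correction is scalar
    have hoff : ∀ t : Emb K, ¬ (F t.1).isR → ∀ v, nrA P F t (X - ∑ s, Y s) v =
        nrA P F t X v := by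
      intro t ht v
      rw [nrA_sub, nrA_sum, Finset.sum_eq_zero, sub_zero]
      intro s _
      refine hY2 s t ?_ ?_ v
      · rintro rfl
        exact ht s.2.1
      · rintro rfl
        exact ht s.2.1
    have hrepR : ∀ t : Emb K, (F t.1).isR → rep t → ∀ v, nrA P F t (X - ∑ s, Y s) v =
        nrA P F t h v := by
      intro t ht hr v
      rw [nrA_sub, nrA_sum, Finset.sum_eq_single ⟨t, ht, hr⟩]
      · rw [hY1 ⟨t, ht, hr⟩ v]
        abel
      · intro s _ hs
        refine hY2 s t ?_ ?_ v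
        · intro h3
          exact hs (Subtype.ext h3.symm)
        · intro h3
          refine not_rep_conj s.1 s.2.2 (hcx _ (Or.inr (Or.inr s.2.1)) _) ?_
          rw [← h3]
          exact hr
      · intro h; exact absurd (Finset.mem_univ _) h
    -- from one place to the conjugate one
    have hconj : ∀ t : Emb K, (∀ v, nrA P F (conjT t) (X - ∑ s, Y s) v =
        nrA P F (conjT t) h v) → ∀ v, nrA P F t (X - ∑ s, Y s) v = nrA P F t h v := by
      intro t ht
      have h3 := nrA_conj P F (conjT t) _ _ (hXY t.1) (hsym t.1) ht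
      have h4 : ∀ t' : Emb K, conjT (conjT t) = t' → ∀ v, nrA P F t' (X - ∑ s, Y s) v =
          nrA P F t' h v := by
        rintro _ rfl
        exact h3
      exact h4 t (conjT_conjT t)
    rcases (F t.1).kinds with hs | hs | hs | hs | hs
    · rw [hoff t ((F t.1).not_R_of_P ((F t.1).isP_of_S hs)), hSQ t (Or.inl hs)]
    · have hnr := (F t.1).not_R_of_P ((F t.1).isP_of_W hs)
      rcases rep_or t with hr | hr
      · rw [hoff t hnr, hSQ t (Or.inr (Or.inl ⟨hs, hr⟩))]
      · exact hconj t (fun v => by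
          rw [hoff (conjT t) hnr, hSQ (conjT t) (Or.inr (Or.inl ⟨hs, hr⟩))]) v
    · have hnr := (F t.1).not_R_of_P ((F t.1).isP_of_Q hs)
      rcases rep_or t with hr | hr
      · rw [hoff t hnr, hSQ t (Or.inr (Or.inr ⟨hs, hr⟩))]
      · exact hconj t (fun v => by
          rw [hoff (conjT t) hnr, hSQ (conjT t) (Or.inr (Or.inr ⟨hs, hr⟩))]) v
    · rcases rep_or t with hr | hr
      · exact hrepR t hs hr v
      · exact hconj t (hrepR (conjT t) hs hr) v
    · rw [nrA_T P F t hs _ (hXY t.1), nrA_T P F t hs _ (hsym t.1)]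

end family

end Pool.Agent.Helper8.E
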