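import Pool.Agent.Helper8.E.Final
import Pool.Agent.Helper28.GPC.PieceAct

/-!
The action of the automorphisms of the field of complex numbers on the pieces of a family of
factors (places, and halves of places of type III), and the existence of noncompact conjugates of
compact pieces.
-/

open scoped ComplexConjugate

namespace Pool.Agent.Helper8.E

open Module NumberField Matrix
open Pool.Agent.Helper7 Pool.Agent.Helper8.D Pool.Agent.Helper36
open Pool.Agent.Helper28.GPC (tw tw_one tw_mul tw_snd tw_zero tw_add tw_smul entC_injective entC_tw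
  isInv_tw entry_tw exists_twist descent exists_perm perm_flip swap_swap' swap_ne eq_swap_of_ne
  actT_one actT_mul rho_inj ent_tw)
open Pool.Agent.GPC (Emb AbVar)

set_option linter.unusedSectionVars false


section family

variable {I : Type} [Fintype I] [DecidableEq I] (n : I → ℕ)
  {κ : I → Type} [∀ i, Fintype (κ i)] [∀ i, DecidableEq (κ i)] {ϖ : ℂ}
  (P : ∀ i, PData (κ i) ϖ)
  {K : I → Type} [∀ i, Field (K i)] [∀ i, NumberField (K i)]
  {k : ℕ} (α : MultilinearMap ℂ (fun _ : Fin (2 * k) => HW κ n) ℂ)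
  (F : ∀ i, Fac5 (P i) (K i))

/-- pieces of kind `S`, `W` or `Q` -/
def SQ (t : Emb K × Fin 2) : Prop := (F t.1.1).isP

lemma exists_Q {s : Emb K} (hs : (F s.1).isQ) : ∃ F', F s.1 = .Q F' := by
  cases h : F s.1 with
  | S F' h' => rw [h] at hs; exact hs.elim
  | W F' h' => rw [h] at hs; exact hs.elim
  | Q F' => exact ⟨F', rfl⟩
  | R F' => rw [h] at hs; exact hs.elim
  | T F' => rw [h] at hs; exact hs.elim

lemma exists_W {s : Emb K} (hs : (F s.1).isW) : ∃ F' h', F s.1 = .W F' h' := by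
  cases h : F s.1 with
  | S F' h' => rw [h] at hs; exact hs.elim
  | W F' h' => exact ⟨F', h', rfl⟩
  | Q F' => rw [h] at hs; exact hs.elim
  | R F' => rw [h] at hs; exact hs.elim
  | T F' => rw [h] at hs; exact hs.elim

lemma exists_S {s : Emb K} (hs : (F s.1).isS) : ∃ F' h', F s.1 = .S F' h' := by
  cases h : F s.1 with
  | S F' h' => exact ⟨F', h', rfl⟩
  | W F' h' => rw [h] at hs; exact hs.elim
  | Q F' => rw [h] at hs; exact hs.elim
  | R F' => rw [h] at hs; exact hs.elim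
  | T F' => rw [h] at hs; exact hs.elim

lemma AA_Q {s : Emb K} {F' : QF (P s.1) (K s.1) 4} (h : F s.1 = .Q F') (ε : Fin 2) (X : GG κ) :
    AA P F s ε X = (F'.sp s.2).a ε (ent F'.toUF s.2 (X.1 s.1), X.2) := by
  rw [AA_apply, h]; rfl

lemma AA_S {s : Emb K} {F' : UF (P s.1) (K s.1) 2} {h'} (h : F s.1 = .S F' h') (ε : Fin 2)
    (X : GG κ) : AA P F s ε X = ent F' s.2 (X.1 s.1) := by
  rw [AA_apply, h]; rfl

lemma AA_W {s : Emb K} {F' : UF (P s.1) (K s.1) 2} {h'} (h : F s.1 = .W F' h') (ε : Fin 2)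
    (X : GG κ) : AA P F s ε X = Fac5.nrW F' s.2 (X.1 s.1, X.2) := by
  rw [AA_apply, h]; rfl

lemma AA_W' {i : I} {F' : UF (P i) (K i) 2} {h'} (h : F i = .W F' h') (σ : K i →+* ℂ) (ε : Fin 2)
    (X : GG κ) : AA P F ⟨i, σ⟩ ε X = Fac5.nrW F' σ (X.1 i, X.2) :=
  AA_W P F (s := ⟨i, σ⟩) h ε X

lemma AA_Q' {i : I} {F' : QF (P i) (K i) 4} (h : F i = .Q F') (σ : K i →+* ℂ) (ε : Fin 2)
    (X : GG κ) : AA P F ⟨i, σ⟩ ε X = (F'.sp σ).a ε (ent F'.toUF σ (X.1 i), X.2) :=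
  AA_Q P F (s := ⟨i, σ⟩) h ε X

lemma AA_S' {i : I} {F' : UF (P i) (K i) 2} {h'} (h : F i = .S F' h') (σ : K i →+* ℂ) (ε : Fin 2)
    (X : GG κ) : AA P F ⟨i, σ⟩ ε X = ent F' σ (X.1 i) :=
  AA_S P F (s := ⟨i, σ⟩) h ε X

variable (hϖ : ϖ ≠ 0)
  (hB : ∀ v : Fin (2 * k) → HW κ n, (∀ r, IsRatP n P (v r)) → ∃ q : ℚ, α v = ϖ ^ k * q)
  (hA : ∀ v : Fin (2 * k) → HW κ n, (∀ r i m j, IsAlgebraic ℚ (v r i m j)) →
      IsAlgebraic ℚ (α v))

lemma snd_of_AA {t : Emb K × Fin 2} {X : GG κ} (hX : IsInv n P α X)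
    (h : (AA P F t.1 t.2 X).trace = 0) : X.2 = 0 := by
  rw [← AA_tr P F t.1 t.2 (symI n P α hX), h]

include hϖ hB hA in
/-- Goursat for two pieces which are not linked -/
lemma exists_sep {t t' : Emb K × Fin 2} (ht : SQ P F t) (ht' : SQ P F t')
    (h : ¬ Lk n P α F t t') (Z : Matrix (Fin 2) (Fin 2) ℂ) (hZ : Z.trace = 0) :
    ∃ X, IsInv n P α X ∧ X.2 = 0 ∧ AA P F t.1 t.2 X = Z ∧ AA P F t'.1 t'.2 X = 0 := by
  obtain ⟨X, h1, h2⟩ := goursat_pair (brS n P α)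
    (fun s : {s : Emb K × Fin 2 // SQ P F s} => AS n P α F s.1) (cS n P α)
    (fun s => AS_br n P α F s.1) (fun s => AS_tr n P α F s.1)
    (fun s Z hZ => AS_surj n P α F hϖ hB hA s.1 s.2 Z hZ) ⟨t, ht⟩ ⟨t', ht'⟩ h Z hZ
  have h1' : AA P F t.1 t.2 (vl n P α X) = Z := h1
  refine ⟨vl n P α X, vl_inv n P α X, ?_, h1', h2⟩
  exact snd_of_AA n P α F (vl_inv n P α X) (t := t) (by rw [h1', hZ])

include hϖ hB hA in
/-- Goursat for one piece against all the pieces which are not linked to it -/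
lemma exists_iso {t : Emb K × Fin 2} (ht : SQ P F t) (Z : Matrix (Fin 2) (Fin 2) ℂ)
    (hZ : Z.trace = 0) :
    ∃ X, IsInv n P α X ∧ X.2 = 0 ∧ AA P F t.1 t.2 X = Z ∧
      ∀ t', SQ P F t' → ¬ Lk n P α F t t' → AA P F t'.1 t'.2 X = 0 := by
  classical
  obtain ⟨X, h1, h2, _⟩ := goursat (brS n P α)
    (fun s : {s : Emb K × Fin 2 // SQ P F s} => AS n P α F s.1) (cS n P α)
    (fun _ : Empty => (0 : SS n P α →ₗ[ℂ] ℂ))
    (fun s => AS_br n P α F s.1) (fun s => AS_tr n P α F s.1)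
    (fun s Z hZ => AS_surj n P α F hϖ hB hA s.1 s.2 Z hZ) (fun s => s.elim) ⟨t, ht⟩ Z hZ
  have h1' : AA P F t.1 t.2 (vl n P α X) = Z := h1
  refine ⟨vl n P α X, vl_inv n P α X, ?_, h1', fun t' ht' h => h2 ⟨t', ht'⟩ h⟩
  exact snd_of_AA n P α F (vl_inv n P α X) (t := t) (by rw [h1', hZ])

variable {n P α F} in
lemma ker_of_lk {t t' : Emb K × Fin 2} (h : Lk n P α F t t') {X : GG κ} (hX : IsInv n P α X)
    (h0 : AA P F t.1 t.2 X = 0) : AA P F t'.1 t'.2 X = 0 := by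
  rw [lk_iff] at h
  obtain ⟨Q, hQ, h⟩ := h
  have h1 := h X hX
  rw [h0, zero_mul] at h1
  have hu : IsUnit Q.det := isUnit_iff_ne_zero.mpr hQ
  rw [← one_mul (AA P F t'.1 t'.2 X), ← Matrix.nonsing_inv_mul _ hu, mul_assoc, ← h1, mul_zero]

include hϖ hB hA in
/-- pieces are linked if and only if the kernel of the first is contained in the kernel of the
second -/
lemma lk_iff_ker {t t' : Emb K × Fin 2} (ht : SQ P F t) (ht' : SQ P F t') :
    Lk n P α F t t' ↔ ∀ X, IsInv n P α X → X.2 = 0 → AA P F t.1 t.2 X = 0 →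
      AA P F t'.1 t'.2 X = 0 := by
  constructor
  · intro h X hX _ h0
    exact ker_of_lk h hX h0
  · intro h
    by_contra hcon
    obtain ⟨X, hX, hX2, h1, h2⟩ := exists_sep n P α F hϖ hB hA ht' ht
      (fun h' => hcon h'.symm) mE tr_mE
    have h3 := h X hX hX2 h2
    rw [h1] at h3
    have h4 := congrFun (congrFun h3 0) 1
    rw [mE01] at h4
    exact one_ne_zero h4

include hϖ hB hA in
/-- the kernels of the two halves of a place of type III are not contained in each other -/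
lemma exists_half {s : Emb K} (hs : (F s.1).isQ) (ε : Fin 2) :
    ∃ X, IsInv n P α X ∧ X.2 = 0 ∧ AA P F s ε X = 0 ∧ AA P F s (Equiv.swap 0 1 ε) X ≠ 0 := by
  have hn := AS_not_conj n P α F hϖ hB hA s hs
  have h1 : ¬ Lk n P α F (s, Equiv.swap 0 1 ε) (s, ε) := by
    intro h
    fin_cases ε
    · exact hn h.symm
    · exact hn h
  obtain ⟨X, hX, hX2, h2, h3⟩ := exists_sep n P α F hϖ hB hA (t := (s, Equiv.swap 0 1 ε))
    (t' := (s, ε)) ((F s.1).isP_of_Q hs) ((F s.1).isP_of_Q hs) h1 mE tr_mE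
  refine ⟨X, hX, hX2, h3, ?_⟩
  rw [h2]
  intro h4
  have h5 := congrFun (congrFun h4 0) 1
  rw [mE01] at h5
  exact one_ne_zero h5

/-- the kernel of a piece -/
def kerP (τ : ℂ ≃+* ℂ) (s : Emb K) (ε : Fin 2) : AddSubgroup (GG κ) where
  carrier := {X | IsInv n P α X ∧ X.2 = 0 ∧ AA P F (actT τ s) ε (tw P τ X) = 0}
  zero_mem' := ⟨IsInv.zero n P α, rfl, by rw [tw_zero, map_zero]⟩
  add_mem' := by
    rintro X Y ⟨h1, h2, h3⟩ ⟨h1', h2', h3'⟩
    refine ⟨h1.add n P α h1', ?_, ?_⟩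
    · show X.2 + Y.2 = 0
      rw [h2, h2', add_zero]
    · rw [tw_add, map_add, h3, h3', add_zero]
  neg_mem' := by
    rintro X ⟨h1, h2, h3⟩
    have e : -X = (-1 : ℂ) • X := (neg_one_smul ℂ X).symm
    refine ⟨?_, ?_, ?_⟩
    · rw [e]; exact h1.smul n P α _
    · show -X.2 = 0
      rw [h2, neg_zero]
    · rw [e, tw_smul, map_smul, h3, smul_zero]

include hϖ hB in
/-- squares -/
lemma sq_iff (τ : ℂ ≃+* ℂ) {X : GG κ} (hX : IsInv n P α X) (hX2 : X.2 = 0) {s : Emb K}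
    (hs : (F s.1).isQ) : (AA P F s 0 X = 0 ∨ AA P F s 1 X = 0) ↔
      (AA P F (actT τ s) 0 (tw P τ X) = 0 ∨ AA P F (actT τ s) 1 (tw P τ X) = 0) := by
  obtain ⟨F', hF'⟩ := exists_Q P F hs
  obtain ⟨i, σ⟩ := s
  simp only at F' hF'
  have hY := isInv_tw n P α hϖ hB τ X hX
  have hY2 : (tw P τ X).2 = 0 := by rw [tw_snd, hX2, map_zero]
  change _ ↔ (AA P F ⟨i, (τ : ℂ →+* ℂ).comp σ⟩ 0 (tw P τ X) = 0 ∨
    AA P F ⟨i, (τ : ℂ →+* ℂ).comp σ⟩ 1 (tw P τ X) = 0)
  rw [AA_Q' P F hF', AA_Q' P F hF', AA_Q' P F hF', AA_Q' P F hF', hX2, hY2]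
  have g1 : GSO (F'.sf σ) (ent F'.toUF σ (X.1 i)) 0 := by
    have := F'.gso σ (symI n P α hX i)
    rwa [hX2] at this
  have g2 : GSO (F'.sf ((τ : ℂ →+* ℂ).comp σ))
      (ent F'.toUF ((τ : ℂ →+* ℂ).comp σ) ((tw P τ X).1 i)) 0 := by
    have := F'.gso ((τ : ℂ →+* ℂ).comp σ) (symI n P α hY i)
    rwa [hY2] at this
  rw [← sq_scalar_iff (F'.sp σ) g1, ← sq_scalar_iff (F'.sp ((τ : ℂ →+* ℂ).comp σ)) g2]
  rw [ent_tw n P α hϖ hB τ hX i F'.toUF σ]
  constructor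
  · rintro ⟨c, hc⟩
    refine ⟨τ c, ?_⟩
    rw [← Matrix.map_mul, hc]
    ext a b
    rw [Matrix.map_apply, Matrix.smul_apply, Matrix.smul_apply, smul_eq_mul, smul_eq_mul, map_mul]
    congr 1
    by_cases h : a = b
    · rw [h, Matrix.one_apply_eq, map_one]
    · rw [Matrix.one_apply_ne h, map_zero]
  · rintro ⟨c, hc⟩
    refine ⟨τ.symm c, ?_⟩
    rw [← Matrix.map_mul] at hc
    ext a b
    have h1 := congrFun (congrFun hc a) b
    rw [Matrix.map_apply, Matrix.smul_apply, smul_eq_mul] at h1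
    apply τ.injective
    rw [h1, Matrix.smul_apply, smul_eq_mul, map_mul, RingEquiv.apply_symm_apply]
    congr 1
    by_cases h : a = b
    · rw [h, Matrix.one_apply_eq, map_one]
    · rw [Matrix.one_apply_ne h, map_zero]

/-- the defining property of the permutation of the two halves of a place -/
def IsPi (τ : ℂ ≃+* ℂ) (s : Emb K) (π : Equiv.Perm (Fin 2)) : Prop :=
  ∀ ε X, IsInv n P α X → X.2 = 0 →
    (AA P F (actT τ s) (π ε) (tw P τ X) = 0 ↔ AA P F s ε X = 0)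

include hϖ hB hA in
/-- (F4), existence -/
theorem exists_pi (τ : ℂ ≃+* ℂ) {s : Emb K} (hs : (F s.1).isQ) : ∃ π, IsPi n P α F τ s π := by
  have h1 : ∀ ε X, X ∈ kerP n P α F 1 s ε ↔ IsInv n P α X ∧ X.2 = 0 ∧ AA P F s ε X = 0 := by
    intro ε X
    show (IsInv n P α X ∧ X.2 = 0 ∧ AA P F (actT 1 s) ε (tw P 1 X) = 0) ↔ _
    rw [tw_one, actT_one]
  have h2 : ∀ ε X, X ∈ kerP n P α F τ s ε ↔
      IsInv n P α X ∧ X.2 = 0 ∧ AA P F (actT τ s) ε (tw P τ X) = 0 := fun ε X => Iff.rfl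
  obtain ⟨π, hπ⟩ := exists_perm (kerP n P α F 1 s) (kerP n P α F τ s) (by
      intro X
      rw [h1, h1, h2, h2, ← and_or_left, ← and_or_left, ← and_or_left, ← and_or_left]
      refine and_congr_right fun hX => and_congr_right fun hX2 => ?_
      exact sq_iff n P α F hϖ hB τ hX hX2 hs) (by
      constructor
      · intro h
        obtain ⟨X, hX, hX2, e1, e2⟩ := exists_half n P α F hϖ hB hA hs 0
        exact e2 ((h1 1 X).mp (h ((h1 0 X).mpr ⟨hX, hX2, e1⟩))).2.2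
      · intro h
        obtain ⟨X, hX, hX2, e1, e2⟩ := exists_half n P α F hϖ hB hA hs 1
        exact e2 ((h1 0 X).mp (h ((h1 1 X).mpr ⟨hX, hX2, e1⟩))).2.2) (by
      have key : ∀ ε, ∃ X, X ∈ kerP n P α F τ s ε ∧ X ∉ kerP n P α F τ s (Equiv.swap 0 1 ε) := by
        intro ε
        obtain ⟨X, hX, hX2, e1, e2⟩ := exists_half n P α F hϖ hB hA (s := actT τ s) hs ε
        obtain ⟨X', hX', rfl, e3, -⟩ := exists_twist (K := K) n P α hϖ hB τ X hX
        have hX'2 : X'.2 = 0 := by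
          rw [e3] at hX2
          exact (map_eq_zero τ).mp hX2
        exact ⟨X', ⟨hX', hX'2, e1⟩, fun h => e2 h.2.2⟩
      constructor
      · intro h
        obtain ⟨X, e1, e2⟩ := key 0
        exact e2 (h e1)
      · intro h
        obtain ⟨X, e1, e2⟩ := key 1
        exact e2 (h e1))
  refine ⟨π, fun ε X hX hX2 => ?_⟩
  have h3 : X ∈ kerP n P α F τ s (π ε) ↔ X ∈ kerP n P α F 1 s ε := by rw [hπ]
  rw [h1, h2] at h3
  constructor
  · intro h
    exact (h3.mp ⟨hX, hX2, h⟩).2.2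
  · intro h
    exact (h3.mpr ⟨hX, hX2, h⟩).2.2

include hϖ hB hA in
/-- (F4), uniqueness -/
theorem pi_unique (τ : ℂ ≃+* ℂ) {s : Emb K} (hs : (F s.1).isQ) {π π' : Equiv.Perm (Fin 2)}
    (h : IsPi n P α F τ s π) (h' : IsPi n P α F τ s π') : π = π' := by
  ext ε
  congr 1
  by_contra hne
  obtain ⟨X, hX, hX2, e1, e2⟩ := exists_half n P α F hϖ hB hA (s := actT τ s) hs (π ε)
  obtain ⟨X', hX', rfl, e3, -⟩ := exists_twist (K := K) n P α hϖ hB τ X hX
  have hX'2 : X'.2 = 0 := by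
    rw [e3] at hX2
    exact (map_eq_zero τ).mp hX2
  apply e2
  rw [← eq_swap_of_ne (Ne.symm hne)]
  exact (h' ε X' hX' hX'2).mpr ((h ε X' hX' hX'2).mp e1)

open Classical in
/-- the permutation of the two halves of a place of type III -/
noncomputable def pp (τ : ℂ ≃+* ℂ) (s : Emb K) : Equiv.Perm (Fin 2) :=
  if h : ∃ π, IsPi n P α F τ s π then h.choose else 1

include hϖ hB hA in
lemma pp_spec (τ : ℂ ≃+* ℂ) {s : Emb K} (hs : (F s.1).isQ) :
    IsPi n P α F τ s (pp n P α F τ s) := by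
  have h := exists_pi n P α F hϖ hB hA τ hs
  rw [pp, dif_pos h]
  exact h.choose_spec

/-- the action of automorphisms on the pieces -/
noncomputable def pact (τ : ℂ ≃+* ℂ) (t : Emb K × Fin 2) : Emb K × Fin 2 :=
  (actT τ t.1, if (F t.1.1).isQ then pp n P α F τ t.1 t.2 else t.2)

lemma pact_fst (τ : ℂ ≃+* ℂ) (t : Emb K × Fin 2) : (pact n P α F τ t).1 = actT τ t.1 := rfl

lemma pact_snd (τ : ℂ ≃+* ℂ) {t : Emb K × Fin 2} (ht : (F t.1.1).isQ) :
    (pact n P α F τ t).2 = pp n P α F τ t.1 t.2 := by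
  rw [pact, if_pos ht]

lemma pact_snd' (τ : ℂ ≃+* ℂ) {t : Emb K × Fin 2} (ht : ¬ (F t.1.1).isQ) :
    (pact n P α F τ t).2 = t.2 := by
  rw [pact, if_neg ht]

lemma pact_SQ (τ : ℂ ≃+* ℂ) {t : Emb K × Fin 2} (ht : SQ P F t) : SQ P F (pact n P α F τ t) := ht

lemma not_isQ_of_isS {i : I} (h : (F i).isS) : ¬ (F i).isQ := fun h' => (F i).not_SQ h h'

include hϖ hB hA in
/-- the kernel of the image of a piece is the twist of the kernel of the piece -/
theorem pact_ker (τ : ℂ ≃+* ℂ) {t : Emb K × Fin 2} (ht : SQ P F t) {X : GG κ}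
    (hX : IsInv n P α X) (hX2 : X.2 = 0) :
    AA P F (pact n P α F τ t).1 (pact n P α F τ t).2 (tw P τ X) = 0 ↔ AA P F t.1 t.2 X = 0 := by
  rcases ((F t.1.1).isP_iff.mp ht) with ht | ht | ht
  · obtain ⟨F', h', hF'⟩ := exists_S P F ht
    obtain ⟨⟨i, σ⟩, ε⟩ := t
    simp only at F' h' hF'
    change AA P F ⟨i, (τ : ℂ →+* ℂ).comp σ⟩ _ (tw P τ X) = 0 ↔ AA P F ⟨i, σ⟩ ε X = 0
    rw [AA_S' P F hF', AA_S' P F hF', ent_tw n P α hϖ hB τ hX i F' σ]
    constructor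
    · intro h
      ext a b
      have h1 := congrFun (congrFun h a) b
      rw [Matrix.map_apply] at h1
      exact (map_eq_zero τ).mp h1
    · intro h
      rw [h]
      ext a b
      rw [Matrix.map_apply]
      exact map_zero τ
  · obtain ⟨F', h', hF'⟩ := exists_W P F ht
    obtain ⟨⟨i, σ⟩, ε⟩ := t
    simp only at F' h' hF'
    change AA P F ⟨i, (τ : ℂ →+* ℂ).comp σ⟩ _ (tw P τ X) = 0 ↔ AA P F ⟨i, σ⟩ ε X = 0
    have e1 : Fac5.nrW F' ((τ : ℂ →+* ℂ).comp σ) ((tw P τ X).1 i, (tw P τ X).2) =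
        (Fac5.nrW F' σ (X.1 i, X.2)).map τ := by
      rw [Fac5.nrW_apply, Fac5.nrW_apply, ent_tw n P α hϖ hB τ hX i F' σ, hX2]
      have h2 : (tw P τ X).2 = 0 := by rw [tw_snd, hX2, map_zero]
      rw [h2]
      ext a b
      simp only [Matrix.sub_apply, Matrix.smul_apply, Matrix.map_apply, Matrix.trace_fin_two,
        smul_eq_mul, map_sub, map_mul, map_div₀, map_add, map_ofNat, map_zero, Matrix.one_apply]
      congr 2
      split_ifs <;> simp
    rw [AA_W' P F hF', AA_W' P F hF', e1]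
    constructor
    · intro h
      ext a b
      have h1 := congrFun (congrFun h a) b
      rw [Matrix.map_apply] at h1
      exact (map_eq_zero τ).mp h1
    · intro h
      rw [h]
      ext a b
      rw [Matrix.map_apply]
      exact map_zero τ
  · rw [pact_snd n P α F τ ht]
    exact pp_spec n P α F hϖ hB hA τ ht t.2 X hX hX2

include hϖ hB hA in
/-- a symmetry killed by the image of a piece is the twist of a symmetry killed by the piece -/
lemma exists_pact_ker (τ : ℂ ≃+* ℂ) {t : Emb K × Fin 2} (ht : SQ P F t) {X : GG κ}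
    (hX : IsInv n P α X) (hX2 : X.2 = 0) :
    ∃ X', IsInv n P α X' ∧ X'.2 = 0 ∧ X = tw P τ X' ∧
      (AA P F (pact n P α F τ t).1 (pact n P α F τ t).2 X = 0 ↔ AA P F t.1 t.2 X' = 0) := by
  obtain ⟨X', hX', rfl, e3, -⟩ := exists_twist (K := K) n P α hϖ hB τ X hX
  have hX'2 : X'.2 = 0 := by
    rw [e3] at hX2
    exact (map_eq_zero τ).mp hX2
  exact ⟨X', hX', hX'2, rfl, pact_ker n P α F hϖ hB hA τ ht hX' hX'2⟩

include hϖ hB hA in
theorem pact_mul (τ τ' : ℂ ≃+* ℂ) (t : Emb K × Fin 2) :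
    pact n P α F (τ * τ') t = pact n P α F τ (pact n P α F τ' t) := by
  by_cases ht : (F t.1.1).isQ
  · have h1 : IsPi n P α F (τ * τ') t.1
        ((pp n P α F τ (actT τ' t.1)) * (pp n P α F τ' t.1)) := by
      intro ε X hX hX2
      rw [actT_mul, tw_mul, Equiv.Perm.mul_apply]
      have h2 := pp_spec n P α F hϖ hB hA τ (s := actT τ' t.1) ht (pp n P α F τ' t.1 ε)
        (tw P τ' X) (isInv_tw n P α hϖ hB τ' X hX) (by rw [tw_snd, hX2, map_zero])
      rw [h2]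
      exact pp_spec n P α F hϖ hB hA τ' ht ε X hX hX2
    have h2 := pi_unique n P α F hϖ hB hA (τ * τ') ht
      (pp_spec n P α F hϖ hB hA (τ * τ') ht) h1
    refine Prod.ext ?_ ?_
    · rw [pact_fst, pact_fst, pact_fst, actT_mul]
    · rw [pact_snd n P α F _ ht, h2, Equiv.Perm.mul_apply,
        pact_snd n P α F τ (t := pact n P α F τ' t) ht, pact_snd n P α F τ' ht]
      rfl
  · refine Prod.ext ?_ ?_
    · rw [pact_fst, pact_fst, pact_fst, actT_mul]
    · rw [pact_snd' n P α F _ ht, pact_snd' n P α F τ (t := pact n P α F τ' t) ht,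
        pact_snd' n P α F τ' ht]

include hϖ hB hA in
theorem pact_one (t : Emb K × Fin 2) : pact n P α F 1 t = t := by
  by_cases ht : (F t.1.1).isQ
  · have h1 : IsPi n P α F 1 t.1 1 := by
      intro ε X hX hX2
      rw [actT_one, tw_one, Equiv.Perm.one_apply]
    have h2 := pi_unique n P α F hϖ hB hA 1 ht (pp_spec n P α F hϖ hB hA 1 ht) h1
    refine Prod.ext ?_ ?_
    · rw [pact_fst, actT_one]
    · rw [pact_snd n P α F _ ht, h2, Equiv.Perm.one_apply]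
  · refine Prod.ext ?_ ?_
    · rw [pact_fst, actT_one]
    · rw [pact_snd' n P α F _ ht]

/-- the action commutes with the exchange of the two halves -/
theorem pact_flip (τ : ℂ ≃+* ℂ) (s : Emb K) (ε : Fin 2) :
    pact n P α F τ (s, Equiv.swap 0 1 ε) =
      ((pact n P α F τ (s, ε)).1, Equiv.swap 0 1 (pact n P α F τ (s, ε)).2) := by
  refine Prod.ext rfl ?_
  by_cases hs : (F s.1).isQ
  · show (pact n P α F τ (s, Equiv.swap 0 1 ε)).2 = Equiv.swap 0 1 (pact n P α F τ (s, ε)).2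
    rw [pact_snd n P α F τ (t := (s, Equiv.swap 0 1 ε)) hs,
      pact_snd n P α F τ (t := (s, ε)) hs, perm_flip]
  · show (pact n P α F τ (s, Equiv.swap 0 1 ε)).2 = Equiv.swap 0 1 (pact n P α F τ (s, ε)).2
    rw [pact_snd' n P α F τ (t := (s, Equiv.swap 0 1 ε)) hs,
      pact_snd' n P α F τ (t := (s, ε)) hs]

include hϖ hB hA in
lemma pact_symm (τ : ℂ ≃+* ℂ) (t : Emb K × Fin 2) :
    pact n P α F τ (pact n P α F τ⁻¹ t) = t := by
  rw [← pact_mul n P α F hϖ hB hA, mul_inv_cancel, pact_one n P α F hϖ hB hA]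

include hϖ hB hA in
/-- the action preserves links -/
theorem lk_pact (τ : ℂ ≃+* ℂ) {t t' : Emb K × Fin 2} (ht : SQ P F t) (ht' : SQ P F t')
    (h : Lk n P α F t t') : Lk n P α F (pact n P α F τ t) (pact n P α F τ t') := by
  rw [lk_iff_ker n P α F hϖ hB hA (pact_SQ n P α F τ ht) (pact_SQ n P α F τ ht')]
  intro X hX hX2 h0
  obtain ⟨X', hX', hX'2, rfl, h1⟩ := exists_pact_ker n P α F hϖ hB hA τ ht hX hX2
  rw [pact_ker n P α F hϖ hB hA τ ht' hX' hX'2]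
  exact ker_of_lk h hX' (h1.mp h0)

end family

section compact

variable {I : Type} [Fintype I] [DecidableEq I] (n : I → ℕ) (A : I → AbVar)
  {K : I → Type} [∀ i, Field (K i)] [∀ i, NumberField (K i)]
  {k : ℕ}
  (α : MultilinearMap ℂ (fun _ : Fin (2 * k) => HW (fun i => Fin (A i).g ⊕ Fin (A i).g) n) ℂ)
  (F : ∀ i, Fac5 (pData (A i)) (K i))

/-- (F1): exactly one half of a place of type III is compact -/
theorem cpt_unique {s : Emb K} (hs : (F s.1).isQ) : ∃! ε, Cpt A F (s, ε) := by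
  obtain ⟨F', hF'⟩ := exists_Q (fun i => pData (A i)) F hs
  have h1 : GSO (F'.sf s.2) (ent F'.toUF s.2 (hod (A s.1))) 1 := F'.gso s.2 (hG_sym A s.1)
  have h2 : ent F'.toUF s.2 (hod (A s.1)) * ent F'.toUF s.2 (hod (A s.1)) =
      ent F'.toUF s.2 (hod (A s.1)) := by
    have h3 := ent_mul F'.toUF s.2 (hod (A s.1)) (hod (A s.1)) ((hG_sym A s.1).commF F'.toUF)
    have h4 : hod (A s.1) * hod (A s.1) = hod (A s.1) := LinearMap.ext fun v => hG_idem A s.1 v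
    rw [← h3, h4]
  obtain ⟨ε, hε, hu⟩ := exists_unique_half (F'.sp s.2) h1 h2
  have key : ∀ ε, Cpt A F (s, ε) ↔
      (F'.sp s.2).a ε (ent F'.toUF s.2 (hod (A s.1)), 1) = (1 / 2 : ℂ) • 1 := by
    intro ε
    rw [Cpt, AA_Q (fun i => pData (A i)) F hF']
    rfl
  exact ⟨ε, (key ε).mpr hε, fun δ hδ => hu δ ((key δ).mp hδ)⟩

variable
  (hϖ : (2 * Real.pi * Complex.I : ℂ) ≠ 0)
  (hB : ∀ v : Fin (2 * k) → HW (fun i => Fin (A i).g ⊕ Fin (A i).g) n,
    (∀ r, IsRatP n (fun i => pData (A i)) (v r)) →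
      ∃ q : ℚ, α v = (2 * Real.pi * Complex.I) ^ k * q)
  (hA : ∀ v : Fin (2 * k) → HW (fun i => Fin (A i).g ⊕ Fin (A i).g) n,
    (∀ r i m j, IsAlgebraic ℚ (v r i m j)) → IsAlgebraic ℚ (α v))

/-- A rational symmetry of multiplier zero, killed by the noncompact halves of all the places of a
factor of type III, acts as zero on the factor. -/
lemma act_zero {i : I} {F' : QF (pData (A i)) (K i) 4} (hF' : F i = .Q F')
    (nc : (K i →+* ℂ) → Fin 2) (hnc : ∀ σ, Cpt A F (⟨i, σ⟩, Equiv.swap 0 1 (nc σ)))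
    (hCE : ∀ f : Module.End ℂ (Fin (A i).g ⊕ Fin (A i).g → ℂ),
      (∀ v ∈ (pData (A i)).Q, f v ∈ (pData (A i)).Q) →
      (∀ v, f (hod (A i) v) = hod (A i) (f v)) →
      ∃ x y, ∀ v, f v = F'.ρ x v + F'.ρ y (F'.j v))
    {X : GG (fun i => Fin (A i).g ⊕ Fin (A i).g)} (hX : IsInv n (fun i => pData (A i)) α X)
    (hX2 : X.2 = 0) (hr : IsRatl (fun i => pData (A i)) X)
    (h0 : ∀ σ, AA (fun i => pData (A i)) F ⟨i, σ⟩ (nc σ) X = 0) : X.1 i = 0 := by
  have hs1 := symI n (fun i => pData (A i)) α hX i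
  have hs2 : Sym (pData (A i)) (hod (A i)) 1 := hG_sym A i
  have hs3 : Sym (pData (A i)) (X.1 i * hod (A i) - hod (A i) * X.1 i) 0 := hs1.bracket hs2
  rw [hX2] at hs1
  have hent : ∀ σ, ent F'.toUF σ (X.1 i * hod (A i) - hod (A i) * X.1 i) = 0 := by
    intro σ
    refine (F'.sp σ).uniq _ 0 0 (F'.gso σ hs3) (by unfold GSO; simp) (fun ε => ?_)
    have e1 : ent F'.toUF σ (X.1 i * hod (A i) - hod (A i) * X.1 i) =
        ent F'.toUF σ (X.1 i) * ent F'.toUF σ (hod (A i)) -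
          ent F'.toUF σ (hod (A i)) * ent F'.toUF σ (X.1 i) := by
      rw [map_sub, ent_mul F'.toUF σ _ _ (hs2.commF F'.toUF),
        ent_mul F'.toUF σ _ _ (hs1.commF F'.toUF)]
    have e2 : (F'.sp σ).a ε ((0 : Matrix (Fin 4) (Fin 4) ℂ), (0 : ℂ)) = 0 :=
      map_zero ((F'.sp σ).a ε)
    rw [e1, (F'.sp σ).br ε _ _ _ _ (F'.gso σ hs1) (F'.gso σ hs2), e2]
    by_cases hε : ε = nc σ
    · have h1 := h0 σ
      rw [AA_Q' (fun i => pData (A i)) F hF', hX2] at h1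
      rw [hε, h1, zero_mul, mul_zero, sub_zero]
    · have h1 := hnc σ
      rw [Cpt] at h1
      have h2 : (F'.sp σ).a (Equiv.swap 0 1 (nc σ)) (ent F'.toUF σ (hod (A i)), 1) =
          (1 / 2 : ℂ) • 1 := by
        rw [← h1]
        exact (AA_Q' (fun i => pData (A i)) F hF' σ _ (hG A)).symm
      rw [eq_swap_of_ne hε, h2, mul_smul_comm, smul_mul_assoc, mul_one, one_mul, sub_self]
  have hcomm : ∀ v, X.1 i (hod (A i) v) = hod (A i) (X.1 i v) := by
    intro v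
    have h1 : (X.1 i * hod (A i) - hod (A i) * X.1 i) v = 0 := by
      refine F'.toUF.ext_e (X.1 i * hod (A i) - hod (A i) * X.1 i) 0 (fun σ b => ?_) v
      rw [ent_act F'.toUF σ _ (hs3.commF F'.toUF), LinearMap.zero_apply]
      refine Finset.sum_eq_zero fun a _ => ?_
      rw [hent σ, Matrix.zero_apply, zero_smul]
    rw [LinearMap.sub_apply, Module.End.mul_apply, Module.End.mul_apply, sub_eq_zero] at h1
    exact h1
  obtain ⟨x, y, hxy⟩ := hCE (X.1 i) (hr.1 i) hcomm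
  have hy : y = 0 := by
    have h1 : ∀ z v, F'.ρ (y * F'.cc z - z * y) (F'.j v) = 0 := by
      intro z v
      have h2 := hs1.comm _ (F'.hρ z) v
      rw [hxy, hxy, F'.jρ, map_add] at h2
      have h3 : F'.ρ x (F'.ρ z v) = F'.ρ z (F'.ρ x v) := by
        rw [← Module.End.mul_apply, ← Module.End.mul_apply, ← map_mul, ← map_mul, mul_comm x z]
      rw [h3] at h2
      have h4 := add_left_cancel h2
      rw [map_sub, map_mul, map_mul, LinearMap.sub_apply, Module.End.mul_apply,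
        Module.End.mul_apply, h4, sub_self]
    have h2 : ∀ z, y * F'.cc z - z * y = 0 := fun z => rho_inj F' _ (h1 z)
    have σ : K i →+* ℂ := Classical.choice (inferInstance : Nonempty (K i →+* ℂ))
    by_contra hy0
    apply F'.cplx σ
    ext z
    have h3 : F'.cc z = z := by
      have h4 := h2 z
      have h5 : y * (F'.cc z - z) = 0 := by linear_combination h4
      exact sub_eq_zero.mp ((mul_eq_zero.mp h5).resolve_left hy0)
    rw [ComplexEmbedding.conjugate_coe_eq, ← F'.hcc, h3]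
  have hX1 : ∀ v, X.1 i v = F'.ρ x v := by
    intro v
    rw [hxy, hy, map_zero, LinearMap.zero_apply, add_zero]
  have hx : F'.cc x = x := by
    have h1 : ∀ v, F'.ρ (F'.cc x - x) (F'.j v) = 0 := by
      intro v
      have h2 := hs1.comm _ F'.hj v
      rw [hX1, hX1, F'.jρ] at h2
      rw [map_sub, LinearMap.sub_apply, ← h2, sub_self]
    exact sub_eq_zero.mp (rho_inj F' _ h1)
  refine LinearMap.ext fun v => ?_
  rw [LinearMap.zero_apply]
  apply (pData (A i)).hψnd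
  intro u
  have h1 := hs1.pol v u
  rw [hX1, hX1, zero_mul] at h1
  have h2 := F'.hros x v u
  rw [hx] at h2
  rw [hX1]
  rw [← h2, ← two_mul] at h1
  exact (mul_eq_zero.mp h1).resolve_left two_ne_zero

include hϖ hB hA in
/-- (F5): every half of a place of type III, in particular the compact one, has a noncompact
conjugate -/
theorem exists_not_cpt
    (hF2 : ∀ t t', SQ (fun i => pData (A i)) F t → SQ (fun i => pData (A i)) F t' →
      Lk n (fun i => pData (A i)) α F t t' → (Cpt A F t ↔ Cpt A F t'))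
    {i : I} {F' : QF (pData (A i)) (K i) 4} (hF' : F i = .Q F')
    (hCE : ∀ f : Module.End ℂ (Fin (A i).g ⊕ Fin (A i).g → ℂ),
      (∀ v ∈ (pData (A i)).Q, f v ∈ (pData (A i)).Q) →
      (∀ v, f (hod (A i) v) = hod (A i) (f v)) →
      ∃ x y, ∀ v, f v = F'.ρ x v + F'.ρ y (F'.j v))
    (σ₀ : K i →+* ℂ) (ε : Fin 2) :
    ∃ τ, ¬ Cpt A F (pact n (fun i => pData (A i)) α F τ (⟨i, σ₀⟩, ε)) := by
  by_contra hcon
  push Not at hcon
  have hQ : (F i).isQ := by rw [hF']; trivial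
  have hex : ∀ σ : K i →+* ℂ, ∃! ε, Cpt A F (⟨i, σ⟩, ε) := fun σ => cpt_unique A F (s := ⟨i, σ⟩) hQ
  choose c hc1 hc2 using hex
  have hkey : ∀ (τ : ℂ ≃+* ℂ) (σ : K i →+* ℂ),
      pact n (fun i => pData (A i)) α F τ (⟨i, σ⟩, c σ) =
        (⟨i, (τ : ℂ →+* ℂ).comp σ⟩, c ((τ : ℂ →+* ℂ).comp σ)) := by
    intro τ σ
    obtain ⟨τ', hτ'⟩ := Pool.Agent.Helper84.exists_aut σ₀ σ
    have h1 : pact n (fun i => pData (A i)) α F τ' (⟨i, σ₀⟩, ε) = (⟨i, σ⟩, c σ) := by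
      have e1 : (pact n (fun i => pData (A i)) α F τ' (⟨i, σ₀⟩, ε)).1 = ⟨i, σ⟩ := by
        show (⟨i, (τ' : ℂ →+* ℂ).comp σ₀⟩ : Emb K) = ⟨i, σ⟩
        rw [hτ']
      refine Prod.ext e1 ?_
      apply hc2 σ
      have h2 := hcon τ'
      rw [← e1]
      exact h2
    rw [← h1, ← pact_mul n _ α F hϖ hB hA]
    have e2 : (pact n (fun i => pData (A i)) α F (τ * τ') (⟨i, σ₀⟩, ε)).1 =
        ⟨i, (τ : ℂ →+* ℂ).comp σ⟩ := by
      show (⟨i, ((τ * τ' : ℂ ≃+* ℂ) : ℂ →+* ℂ).comp σ₀⟩ : Emb K) = ⟨i, (τ : ℂ →+* ℂ).comp σ⟩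
      rw [← hτ']
      rfl
    refine Prod.ext e2 ?_
    apply hc2
    have h2 := hcon (τ * τ')
    rw [← e2]
    exact h2
  have hkey' : ∀ (τ : ℂ ≃+* ℂ) (σ : K i →+* ℂ),
      pact n (fun i => pData (A i)) α F τ (⟨i, σ⟩, Equiv.swap 0 1 (c σ)) =
        (⟨i, (τ : ℂ →+* ℂ).comp σ⟩, Equiv.swap 0 1 (c ((τ : ℂ →+* ℂ).comp σ))) := by
    intro τ σ
    rw [pact_flip, hkey]
  let N : Submodule ℂ (GG (fun i => Fin (A i).g ⊕ Fin (A i).g)) :=
    { carrier := {X | IsInv n (fun i => pData (A i)) α X ∧ X.2 = 0 ∧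
        ∀ σ : K i →+* ℂ, AA (fun i => pData (A i)) F ⟨i, σ⟩ (Equiv.swap 0 1 (c σ)) X = 0}
      zero_mem' := ⟨IsInv.zero n _ α, rfl, fun σ => map_zero _⟩
      add_mem' := by
        rintro X Y ⟨h1, h2, h3⟩ ⟨h1', h2', h3'⟩
        refine ⟨h1.add n _ α h1', ?_, fun σ => ?_⟩
        · show X.2 + Y.2 = 0
          rw [h2, h2', add_zero]
        · rw [map_add, h3, h3', add_zero]
      smul_mem' := by
        rintro a X ⟨h1, h2, h3⟩
        refine ⟨h1.smul n _ α a, ?_, fun σ => ?_⟩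
        · show a * X.2 = 0
          rw [h2, mul_zero]
        · rw [map_smul, h3, smul_zero] }
  have hN : ∀ (τ : ℂ ≃+* ℂ) (X : GG (fun i => Fin (A i).g ⊕ Fin (A i).g)), X ∈ N →
      tw (fun i => pData (A i)) τ X ∈ N := by
    rintro τ X ⟨h1, h2, h3⟩
    refine ⟨isInv_tw n _ α hϖ hB τ X h1, by rw [tw_snd, h2, map_zero], fun σ => ?_⟩
    obtain ⟨σ', hσ'⟩ : ∃ σ' : K i →+* ℂ, (τ : ℂ →+* ℂ).comp σ' = σ :=
      ⟨(τ.symm : ℂ →+* ℂ).comp σ, by ext x; simp⟩
    have h4 := pact_ker n _ α F hϖ hB hA τ (t := (⟨i, σ'⟩, Equiv.swap 0 1 (c σ'))) ((F i).isP_of_Q hQ) h1 h2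
    rw [hkey', hσ'] at h4
    exact h4.mpr (h3 σ')
  have hN0 : ∀ X ∈ N, X.1 i = 0 := by
    intro X hX
    have h1 := descent (fun i => pData (A i)) N hN hX
    refine Submodule.span_induction (p := fun X _ => X.1 i = 0) ?_ rfl ?_ ?_ h1
    · rintro Y ⟨⟨h2, h3, h4⟩, h5⟩
      refine act_zero n A α F hF' (fun σ => Equiv.swap 0 1 (c σ)) (fun σ => ?_) hCE h2 h3 h5 h4
      show Cpt A F (⟨i, σ⟩, Equiv.swap 0 1 (Equiv.swap 0 1 (c σ)))
      have e : Equiv.swap (0 : Fin 2) 1 (Equiv.swap 0 1 (c σ)) = c σ := swap_swap' _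
      rw [e]
      exact hc1 σ
    · intro X Y _ _ h2 h3
      show X.1 i + Y.1 i = 0
      rw [h2, h3, add_zero]
    · intro a X _ h2
      show a • X.1 i = 0
      rw [h2, smul_zero]
  obtain ⟨X, hX, hX2, h1, h2⟩ := exists_iso n _ α F hϖ hB hA (t := (⟨i, σ₀⟩, c σ₀)) ((F i).isP_of_Q hQ)
    mE tr_mE
  have hXN : X ∈ N := by
    refine ⟨hX, hX2, fun σ => h2 (⟨i, σ⟩, Equiv.swap 0 1 (c σ)) ((F i).isP_of_Q hQ) fun hlk => ?_⟩
    have h3 := (hF2 (⟨i, σ₀⟩, c σ₀) (⟨i, σ⟩, Equiv.swap 0 1 (c σ)) ((F i).isP_of_Q hQ)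
      ((F i).isP_of_Q hQ) hlk).mp (hc1 σ₀)
    exact swap_ne _ (hc2 σ _ h3)
  have h3 := hN0 X hXN
  have h4 : AA (fun i => pData (A i)) F ⟨i, σ₀⟩ (c σ₀) X = 0 := by
    rw [AA_Q' (fun i => pData (A i)) F hF', h3, hX2, map_zero]
    exact map_zero ((F'.sp σ₀).a (c σ₀))
  have h5 : (0 : Matrix (Fin 2) (Fin 2) ℂ) = mE := h4.symm.trans h1
  have h6 := congrFun (congrFun h5 0) 1
  rw [mE01] at h6
  exact zero_ne_one h6

end compact

end Pool.Agent.Helper8.E
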