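import Pool.Agent.Helper8.E.Rel
import Pool.Agent.Helper7.U.MainU

/-!
Linked places of rank two have Hermitian forms of the same kind, at all conjugates.
-/

open scoped ComplexConjugate

namespace Pool.Agent.Helper8.E

open Module NumberField Pool.Agent.Helper7 Pool.Agent.Helper24 Matrix
open Pool.Agent.GPC (Emb)
open Pool.Agent.Helper8.D (Sym QF ent ent_apply ent_act ent_trace symI)
open Fac5 (nrW nrW_apply)

set_option linter.unusedSectionVars false

section family

variable {I : Type} [Fintype I] [DecidableEq I] (n : I → ℕ)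
  {κ : I → Type} [∀ i, Fintype (κ i)] [∀ i, DecidableEq (κ i)] {ϖ : ℂ}
  (P : ∀ i, PData (κ i) ϖ)
  {K : I → Type} [∀ i, Field (K i)] [∀ i, NumberField (K i)]
  {k : ℕ} (α : MultilinearMap ℂ (fun _ : Fin (2 * k) => HW κ n) ℂ)

/-- the Hermitian form at a place -/
noncomputable abbrev grU {i : I} (F : UF (P i) (K i) 2) (σ : K i →+* ℂ) :
    Matrix (Fin 2) (Fin 2) ℂ := FT.gram (.inl F) σ

/-- the normalised representation -/
noncomputable def nmU {i : I} (F : UF (P i) (K i) 2) (σ : K i →+* ℂ) :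
    GG κ →ₗ[ℂ] Matrix (Fin 2) (Fin 2) ℂ :=
  (nrW F σ) ∘ₗ ((LinearMap.proj i).prodMap LinearMap.id)

lemma nmU_apply {i : I} (F : UF (P i) (K i) 2) (σ : K i →+* ℂ) (X : GG κ) :
    nmU P F σ X = ent F σ (X.1 i) -
      (((ent F σ (X.1 i)).trace - X.2) / 2) • (1 : Matrix (Fin 2) (Fin 2) ℂ) :=
  nrW_apply F σ (X.1 i) X.2

lemma nmU_rat {i : I} (F : UF (P i) (K i) 2) (X : GG κ) (hX : IsInv n P α X)
    (hr : IsRatl P X) :
    ∃ m : Matrix (Fin 2) (Fin 2) (K i), ∀ σ : K i →+* ℂ, nmU P F σ X = m.map σ := by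
  obtain ⟨m, hm⟩ := FT.exists_matK (.inl F) (X.1 i) ((symI n P α hX i).commF F) (hr.1 i)
  obtain ⟨q, hq⟩ := hr.2
  refine ⟨m - ((m.trace - (q : K i)) / 2) • 1, fun σ => ?_⟩
  have h1 : ent F σ (X.1 i) = m.map σ := by
    ext a b
    exact hm σ a b (Or.inl rfl)
  rw [nmU_apply, h1, hq]
  ext a b
  simp only [Matrix.sub_apply, Matrix.smul_apply, Matrix.map_apply, Matrix.trace_fin_two,
    smul_eq_mul, map_sub, map_mul, map_div₀, map_add, map_ofNat, map_ratCast, Matrix.one_apply]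
  congr 2
  split_ifs <;> simp

lemma nmU_gal {i : I} (F : UF (P i) (K i) 2) (X : GG κ) (hX : IsInv n P α X) (hr : IsRatl P X)
    (τ : ℂ ≃+* ℂ) (σ : K i →+* ℂ) :
    (nmU P F σ X).map τ = nmU P F ((τ : ℂ →+* ℂ).comp σ) X := by
  obtain ⟨m, hm⟩ := nmU_rat n P α F X hX hr
  rw [hm, hm]
  ext a b
  rfl

lemma nmU_conj {i : I} (F : UF (P i) (K i) 2) (X : GG κ) (hX : IsInv n P α X) (hr : IsRatl P X)
    (σ : K i →+* ℂ) :
    mconj (nmU P F σ X) = nmU P F (ComplexEmbedding.conjugate σ) X := by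
  obtain ⟨m, hm⟩ := nmU_rat n P α F X hX hr
  rw [hm, hm]
  ext a b
  rfl

/-- `Q` intertwines the normalised representations at two places. -/
def LinkU {i j : I} (F : UF (P i) (K i) 2) (σ : K i →+* ℂ) (G : UF (P j) (K j) 2)
    (τ : K j →+* ℂ) (Q : Matrix (Fin 2) (Fin 2) ℂ) : Prop :=
  ∀ X, IsInv n P α X → nmU P F σ X * Q = Q * nmU P G τ X

variable {n P α} in
lemma LinkU.symm {i j : I} {F : UF (P i) (K i) 2} {σ : K i →+* ℂ} {G : UF (P j) (K j) 2}
    {τ : K j →+* ℂ} {Q : Matrix (Fin 2) (Fin 2) ℂ}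
    (h : LinkU n P α F σ G τ Q) (hQ : Q.det ≠ 0) : LinkU n P α G τ F σ Q⁻¹ := by
  intro X hX
  have hu : IsUnit Q.det := isUnit_iff_ne_zero.mpr hQ
  have h1 := h X hX
  calc nmU P G τ X * Q⁻¹ = Q⁻¹ * (Q * nmU P G τ X) * Q⁻¹ := by
        rw [← mul_assoc, Matrix.nonsing_inv_mul _ hu, one_mul]
    _ = Q⁻¹ * nmU P F σ X := by
        rw [← h1, mul_assoc, mul_assoc, Matrix.mul_nonsing_inv _ hu, mul_one]

variable (hϖ : ϖ ≠ 0)
  (hB : ∀ v : Fin (2 * k) → HW κ n, (∀ r, IsRatP n P (v r)) → ∃ q : ℚ, α v = ϖ ^ k * q)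
  (hA : ∀ v : Fin (2 * k) → HW κ n, (∀ r i m j, IsAlgebraic ℚ (v r i m j)) →
      IsAlgebraic ℚ (α v))

variable {n P α} in
include hϖ hB in
/-- Galois conjugates of linked places are linked. -/
lemma LinkU.gal {i j : I} {F : UF (P i) (K i) 2} {σ : K i →+* ℂ} {G : UF (P j) (K j) 2}
    {τ : K j →+* ℂ} {Q : Matrix (Fin 2) (Fin 2) ℂ}
    (h : LinkU n P α F σ G τ Q) (g : ℂ ≃+* ℂ) :
    LinkU n P α F ((g : ℂ →+* ℂ).comp σ) G ((g : ℂ →+* ℂ).comp τ) (Q.map g) := by
  intro X hX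
  have h1 := lin_of_rat n P α hϖ hB
    ((LinearMap.mulRight ℂ (Q.map g)) ∘ₗ nmU P F ((g : ℂ →+* ℂ).comp σ) -
      (LinearMap.mulLeft ℂ (Q.map g)) ∘ₗ nmU P G ((g : ℂ →+* ℂ).comp τ))
    (fun X hX hr => by
      show nmU P F ((g : ℂ →+* ℂ).comp σ) X * Q.map g -
        Q.map g * nmU P G ((g : ℂ →+* ℂ).comp τ) X = 0
      rw [← nmU_gal n P α F X hX hr, ← nmU_gal n P α G X hX hr, ← Matrix.map_mul,
        ← Matrix.map_mul, h X hX, sub_self]) X hX
  exact sub_eq_zero.mp h1

lemma nmU_gram {i : I} (F : UF (P i) (K i) 2) (X : GG κ) (hX : IsInv n P α X)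
    (σ : K i →+* ℂ) :
    (nmU P F σ X)ᵀ * grU P F σ +
      grU P F σ * nmU P F (ComplexEmbedding.conjugate σ) X = X.2 • grU P F σ := by
  have hc := (symI n P α hX i).commF F
  have h1 := FT.gram_inv (.inl F) (X.1 i) hc X.2 (hX.pol i) σ
  have h2 := FT.trcj (.inl F) rfl (X.1 i) hc X.2 (hX.pol i) σ
  have e1 : ∀ σ, FT.mat (.inl F) σ (X.1 i) = ent F σ (X.1 i) := fun σ => rfl
  rw [e1, e1] at h1 h2
  rw [nmU_apply, nmU_apply, transpose_sub, transpose_smul, transpose_one, sub_mul, mul_sub,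
    smul_mul_assoc, one_mul, mul_smul_comm, mul_one, ← h1]
  have h3 : ((ent F (ComplexEmbedding.conjugate σ) (X.1 i)).trace - X.2) / 2 =
      -(((ent F σ (X.1 i)).trace - X.2) / 2) := by linear_combination h2 / 2
  rw [h3]
  module

variable {n P α} in
include hϖ hB hA in
/-- A link carries one Hermitian form to a multiple of the other. -/
lemma LinkU.gram {i j : I} {F : UF (P i) (K i) 2} {σ : K i →+* ℂ} {G : UF (P j) (K j) 2}
    {τ : K j →+* ℂ} {Q : Matrix (Fin 2) (Fin 2) ℂ}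
    (h : LinkU n P α F σ G τ Q) (hQ : Q.det ≠ 0) :
    ∃ β : ℂ, Qᵀ * grU P F σ * mconj Q = β • grU P G τ := by
  have hg : IsUnit (grU P G τ).det :=
    isUnit_iff_ne_zero.mpr (FT.gram_det (.inl G) rfl τ)
  obtain ⟨D, hD⟩ : ∃ D, D = (grU P G τ)⁻¹ * (Qᵀ * grU P F σ * mconj Q) := ⟨_, rfl⟩
  have hD' : Qᵀ * grU P F σ * mconj Q = grU P G τ * D := by
    rw [hD, ← mul_assoc, Matrix.mul_nonsing_inv _ hg, one_mul]
  -- `D` commutes with the normalised representation at the conjugate place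
  have hcomm : ∀ X, IsInv n P α X →
      nmU P G (ComplexEmbedding.conjugate τ) X * D =
      D * nmU P G (ComplexEmbedding.conjugate τ) X := by
    intro X hX
    have h1 := lin_of_rat n P α hϖ hB
      ((LinearMap.mulRight ℂ D) ∘ₗ nmU P G (ComplexEmbedding.conjugate τ) -
        (LinearMap.mulLeft ℂ D) ∘ₗ nmU P G (ComplexEmbedding.conjugate τ))
      (fun X hX hr => by
        show nmU P G (ComplexEmbedding.conjugate τ) X * D -
          D * nmU P G (ComplexEmbedding.conjugate τ) X = 0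
        have e1 := nmU_gram n P α F X hX σ
        have e2 := nmU_gram n P α G X hX τ
        rw [← nmU_conj n P α F X hX hr] at e1
        have e3 := h X hX
        have e4 := congrArg Matrix.transpose e3
        rw [transpose_mul, transpose_mul] at e4
        have e5 := congrArg mconj e3
        rw [mconj_mul, mconj_mul, nmU_conj n P α G X hX hr] at e5
        -- the transported form satisfies the same equation
        have e6 : (nmU P G τ X)ᵀ * (grU P G τ * D) +
            (grU P G τ * D) * nmU P G (ComplexEmbedding.conjugate τ) X =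
            X.2 • (grU P G τ * D) := by
          rw [← hD']
          calc (nmU P G τ X)ᵀ * (Qᵀ * grU P F σ * mconj Q) +
              (Qᵀ * grU P F σ * mconj Q) * nmU P G (ComplexEmbedding.conjugate τ) X
              = ((nmU P G τ X)ᵀ * Qᵀ) * grU P F σ * mconj Q +
                Qᵀ * grU P F σ * (mconj Q *
                  nmU P G (ComplexEmbedding.conjugate τ) X) := by
                simp only [mul_assoc]
            _ = Qᵀ * ((nmU P F σ X)ᵀ * grU P F σ +
                grU P F σ * mconj (nmU P F σ X)) * mconj Q := by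
                rw [← e4, ← e5]
                simp only [mul_assoc, mul_add, add_mul]
            _ = _ := by
                rw [e1, mul_smul_comm, smul_mul_assoc]
        have e7 : grU P G τ * (nmU P G (ComplexEmbedding.conjugate τ) X * D -
            D * nmU P G (ComplexEmbedding.conjugate τ) X) = 0 := by
          have e8 := congrArg (fun M => M * D) e2
          simp only [add_mul, smul_mul_assoc] at e8
          rw [mul_sub, ← mul_assoc, ← mul_assoc, sub_eq_zero]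
          rw [← e8, mul_assoc ((nmU P G τ X)ᵀ)] at e6
          exact (add_left_cancel e6).symm
        have e9 := congrArg (fun M => (grU P G τ)⁻¹ * M) e7
        simp only [mul_zero, ← mul_assoc, Matrix.nonsing_inv_mul _ hg, one_mul] at e9
        exact e9) X hX
    exact sub_eq_zero.mp h1
  have hsl : ∀ Z : Matrix (Fin 2) (Fin 2) ℂ, Z.trace = 0 → Z * D = D * Z := by
    intro Z hZ
    obtain ⟨X, hX, hXZ⟩ := UF.sl_surj n P α j G hϖ hB hA (ComplexEmbedding.conjugate τ) Z hZ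
    have h1 := hcomm X hX
    have h2 : ent G (ComplexEmbedding.conjugate τ) (X.1 j) = Z := by
      ext a b; exact hXZ a b
    rw [nmU_apply, h2, sub_mul, mul_sub, smul_mul_assoc, one_mul, mul_smul_comm, mul_one,
      sub_left_inj] at h1
    exact h1
  obtain ⟨β, hβ⟩ := scalar_of_comm D (hsl _ tr_mE) (hsl _ tr_mF)
  exact ⟨β, by rw [hD', hβ, mul_smul_comm, mul_one]⟩

variable {n P α} in
include hϖ hB hA in
/-- linked places have Hermitian forms of the same kind, at all conjugates -/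
lemma LinkU.aniso {i j : I} {F : UF (P i) (K i) 2} {σ : K i →+* ℂ} {G : UF (P j) (K j) 2}
    {τ : K j →+* ℂ} {Q : Matrix (Fin 2) (Fin 2) ℂ}
    (h : LinkU n P α F σ G τ Q) (hQ : Q.det ≠ 0) (g : ℂ ≃+* ℂ) :
    Aniso (grU P F ((g : ℂ →+* ℂ).comp σ)) ↔ Aniso (grU P G ((g : ℂ →+* ℂ).comp τ)) := by
  have h1 := h.gal hϖ hB g
  have hQ1 : (Q.map g).det ≠ 0 := by
    have h2 : (Q.map g).det = g Q.det := by
      rw [Matrix.det_fin_two, Matrix.det_fin_two]
      simp
    rw [h2]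
    exact (map_ne_zero g).mpr hQ
  have hQ2 : (Q.map g)⁻¹.det ≠ 0 := by
    rw [← isUnit_iff_ne_zero]
    exact Matrix.isUnit_nonsing_inv_det _ (isUnit_iff_ne_zero.mpr hQ1)
  constructor
  · intro hs
    obtain ⟨β, hβ⟩ := h1.gram hϖ hB hA hQ1
    exact hs.of_conj hQ1 hβ
  · intro hs
    obtain ⟨β, hβ⟩ := (h1.symm hQ1).gram hϖ hB hA hQ2
    exact hs.of_conj hQ2 hβ

end family

end Pool.Agent.Helper8.E
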