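import Pool.Agent.Helper8.D.CondIII
import Pool.Agent.Helper7.U.UTypes

/-!
The condition on the factors of type III and the factors of unitary type.
-/

namespace Pool.Agent.GPC

/-- For `i ∈ Q` and `j ∈ W` the degree `[K_j : ℚ]` is neither `[K_i : ℚ]` nor `2 [K_i : ℚ]`. -/
def DegreesApart {I : Type} (K : I → Type) [∀ i, Field (K i)] [∀ i, NumberField (K i)]
    (Q W : Finset I) : Prop :=
  ∀ i ∈ Q, ∀ j ∈ W, Module.finrank ℚ (K j) ≠ Module.finrank ℚ (K i) ∧
    Module.finrank ℚ (K j) ≠ 2 * Module.finrank ℚ (K i)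

end Pool.Agent.GPC
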