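import Pool.Agent.Helper8.E.Pieces

/-!
Links between the representations of dimension two, and the element of the Hodge structure.
-/

namespace Pool.Agent.Helper8.E

open Module NumberField Pool.Agent.Helper7 Pool.Agent.Helper24 Pool.Agent.Helper36 Matrix
open Pool.Agent.GPC (Emb)
open Pool.Agent.Helper8.D (Sym QF ent SS vl vl_inv mkS hG hG_sym hG_idem)

set_option linter.unusedSectionVars false

section family

variable {I : Type} [Fintype I] [DecidableEq I] (n : I → ℕ)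
  {κ : I → Type} [∀ i, Fintype (κ i)] [∀ i, DecidableEq (κ i)] {ϖ : ℂ}
  (P : ∀ i, PData (κ i) ϖ)
  {K : I → Type} [∀ i, Field (K i)] [∀ i, NumberField (K i)]
  {k : ℕ} (α : MultilinearMap ℂ (fun _ : Fin (2 * k) => HW κ n) ℂ)
  (F : ∀ i, Fac5 (P i) (K i))

/-- two pieces are linked if the representations of the Lie algebra of symmetries are conjugate -/
def Lk (t t' : Emb K × Fin 2) : Prop := ConjRep (AS n P α F) t t'

lemma lk_iff (t t' : Emb K × Fin 2) : Lk n P α F t t' ↔ ∃ Q : Matrix (Fin 2) (Fin 2) ℂ,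
    Q.det ≠ 0 ∧ ∀ X, IsInv n P α X → AA P F t.1 t.2 X * Q = Q * AA P F t'.1 t'.2 X := by
  constructor
  · rintro ⟨Q, hQ, h⟩
    exact ⟨Q, hQ, fun X hX => h (mkS n P α X hX)⟩
  · rintro ⟨Q, hQ, h⟩
    exact ⟨Q, hQ, fun X => h _ (vl_inv n P α X)⟩

lemma Lk.refl (t : Emb K × Fin 2) : Lk n P α F t t := by
  rw [lk_iff]
  exact ⟨1, by simp, fun X _ => by rw [mul_one, one_mul]⟩

variable {n P α F} in
lemma Lk.symm {t t' : Emb K × Fin 2} (h : Lk n P α F t t') : Lk n P α F t' t := by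
  rw [lk_iff] at h ⊢
  obtain ⟨Q, hQ, h⟩ := h
  have hu : IsUnit Q.det := isUnit_iff_ne_zero.mpr hQ
  refine ⟨Q⁻¹, ?_, fun X hX => ?_⟩
  · rw [← isUnit_iff_ne_zero]
    exact Matrix.isUnit_nonsing_inv_det _ hu
  · have h1 := h X hX
    calc AA P F t'.1 t'.2 X * Q⁻¹ = Q⁻¹ * (Q * AA P F t'.1 t'.2 X) * Q⁻¹ := by
          rw [← mul_assoc, Matrix.nonsing_inv_mul _ hu, one_mul]
      _ = Q⁻¹ * AA P F t.1 t.2 X := by
          rw [← h1, mul_assoc, mul_assoc, Matrix.mul_nonsing_inv _ hu, mul_one]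

variable {n P α F} in
lemma Lk.trans {t t' t'' : Emb K × Fin 2} (h : Lk n P α F t t') (h' : Lk n P α F t' t'') :
    Lk n P α F t t'' := by
  rw [lk_iff] at h h' ⊢
  obtain ⟨Q, hQ, h⟩ := h
  obtain ⟨Q', hQ', h'⟩ := h'
  refine ⟨Q * Q', ?_, fun X hX => ?_⟩
  · rw [Matrix.det_mul]
    exact mul_ne_zero hQ hQ'
  · rw [← mul_assoc, h X hX, mul_assoc, h' X hX, mul_assoc]

end family

section hodge

open Pool.Agent.GPC (AbVar)

variable {I : Type} [Fintype I] [DecidableEq I] (A : I → AbVar)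
  {K : I → Type} [∀ i, Field (K i)] [∀ i, NumberField (K i)]
  (F : ∀ i, Fac5 (pData (A i)) (K i))

/-- compact pieces: the Hodge element acts as a scalar -/
def Cpt (t : Emb K × Fin 2) : Prop :=
  AA (fun i => pData (A i)) F t.1 t.2 (hG A) = (1 / 2 : ℂ) • 1

end hodge

end Pool.Agent.Helper8.E
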