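import Pool.Agent.Helper8.E.Sign

/-!
Places of unitary type are linked only with themselves and with the conjugate places, if the signs
of the Hermitian forms separate them.
-/

open scoped ComplexConjugate

namespace Pool.Agent.Helper8.E

open Module NumberField Pool.Agent.Helper7 Pool.Agent.Helper24 Matrix
open Pool.Agent.GPC (Emb AbVar)
open Pool.Agent.Helper8.D (Sym QF ent ent_apply ent_act ent_trace symI)
open Fac5 (nrW nrW_apply)

set_option linter.unusedSectionVars false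

section single

variable {κ : Type} [Fintype κ] [DecidableEq κ] {ϖ : ℂ} {P : PData κ ϖ}
  {K : Type} [Field K] [NumberField K]

/-- factors of rank two -/
lemma exists_SW {f : Fac5 P K} (h : f.isS ∨ f.isW) : ∃ F' : UF P K 2,
    (∀ x v, F'.ρ x v = f.toUF.ρ x v) ∧
    ∀ σ ε X c, Sym P X c → f.A σ ε (X, c) = nrW F' σ (X, c) := by
  cases f with
  | S F h' =>
    refine ⟨F, fun _ _ => rfl, fun σ ε X c hX => ?_⟩
    have h1 := Fac5.A_tr (.S F h') σ 0 hX
    have h2 : (ent F σ X).trace = c := h1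
    show ent F σ X = _
    rw [nrW_apply, h2, sub_self, zero_div, zero_smul, sub_zero]
  | W F h' => exact ⟨F, fun _ _ => rfl, fun σ ε X c _ => rfl⟩
  | Q F => rcases h with h | h <;> exact h.elim
  | R F => rcases h with h | h <;> exact h.elim
  | T F => rcases h with h | h <;> exact h.elim

end single

section family

variable {I : Type} [Fintype I] [DecidableEq I] (n : I → ℕ) (A : I → AbVar)
  {K : I → Type} [∀ i, Field (K i)] [∀ i, NumberField (K i)]
  {k : ℕ} (α : MultilinearMap ℂ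
    (fun _ : Fin (2 * k) => HW (fun i => Fin (A i).g ⊕ Fin (A i).g) n) ℂ)
  (F : ∀ i, Fac5 (pData (A i)) (K i))
  (hϖ : (2 * Real.pi * Complex.I : ℂ) ≠ 0)
  (hB : ∀ v : Fin (2 * k) → HW (fun i => Fin (A i).g ⊕ Fin (A i).g) n,
    (∀ r, IsRatP n (fun i => pData (A i)) (v r)) →
      ∃ q : ℚ, α v = (2 * Real.pi * Complex.I) ^ k * q)
  (hA : ∀ v : Fin (2 * k) → HW (fun i => Fin (A i).g ⊕ Fin (A i).g) n,
    (∀ r i m j, IsAlgebraic ℚ (v r i m j)) → IsAlgebraic ℚ (α v))

include hϖ hB hA in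
/-- linked places of rank two are definite at the same conjugates -/
theorem def_of_lk (s t : Emb K) (ε ε' : Fin 2) (hs : (F s.1).isS ∨ (F s.1).isW)
    (ht : (F t.1).isS ∨ (F t.1).isW)
    (h : Lk n (fun i => pData (A i)) α F (s, ε) (t, ε')) (g : ℂ ≃+* ℂ) :
    IsDefAt (A s.1) (F s.1).toUF.ρ ((g : ℂ →+* ℂ).comp s.2) ↔
      IsDefAt (A t.1) (F t.1).toUF.ρ ((g : ℂ →+* ℂ).comp t.2) := by
  obtain ⟨Fs, hFs, hAs⟩ := exists_SW hs
  obtain ⟨Ft, hFt, hAt⟩ := exists_SW ht
  obtain ⟨Q, hQ, hQX⟩ := (lk_iff n (fun i => pData (A i)) α F (s, ε) (t, ε')).mp h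
  have hl : LinkU n (fun i => pData (A i)) α Fs s.2 Ft t.2 Q := by
    intro X hX
    have h1 := hQX X hX
    have e1 : AA (fun i => pData (A i)) F s ε X = nmU (fun i => pData (A i)) Fs s.2 X :=
      hAs s.2 ε _ _ (symI n _ α hX s.1)
    have e2 : AA (fun i => pData (A i)) F t ε' X = nmU (fun i => pData (A i)) Ft t.2 X :=
      hAt t.2 ε' _ _ (symI n _ α hX t.1)
    simp only at h1
    rw [e1, e2] at h1
    exact h1
  have h2 := hl.aniso hϖ hB hA hQ g
  have r1 : Fs.ρ = (F s.1).toUF.ρ := RingHom.ext fun x => LinearMap.ext fun v => hFs x v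
  have r2 : Ft.ρ = (F t.1).toUF.ρ := RingHom.ext fun x => LinearMap.ext fun v => hFt x v
  rw [aniso_gram, aniso_gram, r1, r2] at h2
  exact h2

include hϖ hB hA in
/-- links of places of unitary type -/
theorem w_link
    (hsep : ∀ s t : Emb K, (F s.1).isW → ((F t.1).isS ∨ (F t.1).isW) → t ≠ s → t ≠ conjT s →
      ∃ g : ℂ ≃+* ℂ, ¬ (IsDefAt (A s.1) (F s.1).toUF.ρ ((g : ℂ →+* ℂ).comp s.2) ↔
        IsDefAt (A t.1) (F t.1).toUF.ρ ((g : ℂ →+* ℂ).comp t.2)))
    (s : Emb K) (t' : Emb K × Fin 2) (hs : (F s.1).isW)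
    (ht' : (F t'.1.1).isS ∨ (F t'.1.1).isW)
    (h : Lk n (fun i => pData (A i)) α F (s, 0) t') : t'.1 = s ∨ t'.1 = conjT s := by
  by_contra hcon
  push Not at hcon
  obtain ⟨g, hg⟩ := hsep s t'.1 hs ht' hcon.1 hcon.2
  exact hg (def_of_lk n A α F hϖ hB hA s t'.1 0 t'.2 (Or.inr hs) ht' h g)

end family

end Pool.Agent.Helper8.E
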