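import Pool.Agent.Helper8.E.Final
import Pool.Agent.Helper8.E.WLink
import Pool.Agent.Helper8.E.CondIV
import Pool.Agent.Helper8.E.RSix
import Pool.Agent.Helper8.E.LinkIso
import Pool.Agent.Helper36.E.NoLink
import Pool.Agent.Helper8.D.MainIII

/-!
Grothendieck classes are Hodge classes, for products of powers of abelian varieties of `GL_2`-type,
of unitary type and rank two, of type III with first homology of rank two or three over the
endomorphism algebra, and of CM type.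
-/

namespace Pool.Agent.Helper8.E

open Module NumberField LieAlgebra Pool.Agent.Helper7 Pool.Agent.Helper24 Pool.Agent.GPC Matrix
open Pool.Agent.Helper8.D (Sym QF ent symI hG hG_sym hG_idem exists_QF exists_UF1)

attribute [local instance 100] LieRing.ofAssociativeRing

set_option linter.unusedSectionVars false

variable {I : Type} [Fintype I] (A : I → AbVar) (n : I → ℕ) (K : I → Type)
  [∀ i, Field (K i)] [∀ i, NumberField (K i)]

lemma omf_congr {p q : I → Prop} (h : p = q)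
    (hp : OddMultiplicityFree (fun i : {i // p i} => K i.1)) :
    OddMultiplicityFree (fun i : {i // q i} => K i.1) := by
  subst h
  exact hp

theorem main_IV (hnp : ∀ i, NotProportional (A i)) (ρ : ∀ i, K i → (A i).H1 → (A i).H1)
    (S W Q R T : Finset I) (hI : ∀ i, i ∈ S ∨ i ∈ W ∨ i ∈ Q ∨ i ∈ R ∨ i ∈ T)
    (hS : ∀ i ∈ S, IsRMType (A i) (K i)) (hW : ∀ i ∈ W, IsUnitaryType (A i) (K i) (ρ i))
    (hQ : ∀ i ∈ Q, IsTypeThree (A i) (K i) 2) (hR : ∀ i ∈ R, IsTypeThree (A i) (K i) 3)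
    (hT : ∀ i ∈ T, IsCMType (A i) (K i)) (hsep : SignSeparated A K ρ S W)
    (hQC : QuatCond A K Q) (hQW : DegreesApart K Q W) (hRC : HomZero A R)
    (k : ℕ) (hCM : OddMultiplicityFree (fun i : {i // i ∈ W ∨ i ∈ T} => K i.1) ∨
      (W = ∅ ∧ (LowDimCM A n K T ∨ PrimeFamCM A n K T k))) (α : Form A n (2 * k))
    (hα : IsGrothendieck A n k α) : IsHodge A n k α := by
  classical
  -- the factors of CM type
  have hTex : ∀ i : {i // i ∈ T}, ∃ (G : {F : Fac (pData (A i.1)) (K i.1) // ¬ F.gl})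
      (F : UF (pData (A i.1)) (K i.1) 1), ∀ x v, F.ρ x v = G.1.ρ x v := by
    intro i
    obtain ⟨h1, ⟨C⟩⟩ := hT i.1 i.2
    obtain ⟨F, hF⟩ := exists_UF1 (A i.1) (K i.1) C
    exact ⟨⟨cmFac (A i.1) (K i.1) C (hnp i.1), fun h => h⟩, F, hF⟩
  choose G FT hGT using hTex
  have hF : ∀ i, ∃ f : Fac5 (pData (A i)) (K i), (f.isT ↔ i ∈ T) ∧ (f.isW ↔ i ∈ W \ T) ∧
      (f.isS → i ∈ S) ∧ (f.isQ → i ∈ Q) ∧ (f.isR → i ∈ R) ∧
      (∀ hi : i ∈ T, ∀ x v, f.toUF.ρ x v = (G ⟨i, hi⟩).1.ρ x v) ∧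
      (f.isW → (∀ σ, IsDefAt (A i) f.toUF.ρ σ ↔ (A i).IsPureAt (ρ i) σ) ∧
        ∀ g, IsDRB (pData (A i)) (pData (A i)) g → ∃ x, ∀ v, g v = f.toUF.ρ x v) := by
    intro i
    by_cases hiT : i ∈ T
    · exact ⟨.T (FT ⟨i, hiT⟩), ⟨fun _ => hiT, fun _ => trivial⟩,
        ⟨fun h => h.elim, fun h => absurd hiT (Finset.mem_sdiff.mp h).2⟩, fun h => h.elim,
        fun h => h.elim, fun h => h.elim, fun _ x v => hGT ⟨i, hiT⟩ x v, fun h => h.elim⟩
    · by_cases hiW : i ∈ W
      · obtain ⟨h1, C⟩ := hW i hiW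
        obtain ⟨F, hF⟩ := nonempty_UFu (A i) (K i) (ρ i) C
        refine ⟨.W F (fun σ hσ => IsTotallyComplex.complexEmbedding_not_isReal σ
            (ComplexEmbedding.isReal_iff.mpr hσ)), ⟨fun h => h.elim, fun h => absurd h hiT⟩,
          ⟨fun _ => Finset.mem_sdiff.mpr ⟨hiW, hiT⟩, fun _ => trivial⟩, fun h => h.elim,
          fun h => h.elim, fun h => h.elim, fun h => absurd h hiT, fun _ => ⟨fun σ => ?_,
          fun g hg => ?_⟩⟩
        · exact isDefAt_iff F (ρ i) hF σ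
        · obtain ⟨x, hx⟩ := C.full g (isEnd_of_isDRB (A i) g hg)
          exact ⟨x, fun v => by rw [hx v, ← hF]; rfl⟩
      · have hnW : i ∉ W \ T := fun h => hiW (Finset.mem_sdiff.mp h).1
        by_cases hiQ : i ∈ Q
        · obtain ⟨h1, ⟨C⟩⟩ := hQ i hiQ
          obtain ⟨F', -, -⟩ := exists_QF C 4 rfl
          exact ⟨.Q F', ⟨fun h => h.elim, fun h => absurd h hiT⟩,
            ⟨fun h => h.elim, fun h => absurd h hnW⟩, fun h => h.elim, fun _ => hiQ,
            fun h => h.elim, fun h => absurd h hiT, fun h => h.elim⟩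
        · by_cases hiR : i ∈ R
          · obtain ⟨h1, ⟨C⟩⟩ := hR i hiR
            obtain ⟨F', -, -⟩ := exists_QF C 6 rfl
            exact ⟨.R F', ⟨fun h => h.elim, fun h => absurd h hiT⟩,
              ⟨fun h => h.elim, fun h => absurd h hnW⟩, fun h => h.elim, fun h => h.elim,
              fun _ => hiR, fun h => absurd h hiT, fun h => h.elim⟩
          · have hiS : i ∈ S := by
              rcases hI i with h | h | h | h | h
              · exact h
              · exact absurd h hiW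
              · exact absurd h hiQ
              · exact absurd h hiR
              · exact absurd h hiT
            obtain ⟨h1, ⟨C⟩⟩ := hS i hiS
            obtain ⟨F', hF'⟩ := nonempty_UF2 (A i) (K i) C
            exact ⟨.S F' (fun σ => ComplexEmbedding.isReal_iff.mp
              (IsTotallyReal.complexEmbedding_isReal σ)), ⟨fun h => h.elim,
              fun h => absurd h hiT⟩, ⟨fun h => h.elim, fun h => absurd h hnW⟩, fun _ => hiS,
              fun h => h.elim, fun h => h.elim, fun h => absurd h hiT, fun h => h.elim⟩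
  choose F hFT hFW hFS hFQ hFR hFG hFD using hF
  have hQd : ∀ i ∈ Q, ∀ j ∈ Q, i ≠ j → ∀ g : (A i).H1 →ₗ[ℂ] (A j).H1,
      IsDRB (pData (A i)) (pData (A j)) g → g = 0 := by
    intro i hi j hj hij g hg
    have h1 := (isDRB_iff (A i) (A j) g).mp hg
    exact LinearMap.ext fun v => hQC.hom_zero i hi j hj hij g
        ⟨g.isLinear, h1.1, h1.2, hom_fil (A i) (A j) g g.isLinear h1.1 h1.2⟩ v
  have hRd : ∀ i ∈ R, ∀ j ∈ R, i ≠ j → ∀ g : (A i).H1 →ₗ[ℂ] (A j).H1,
      IsDRB (pData (A i)) (pData (A j)) g → g = 0 := by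
    intro i hi j hj hij g hg
    have h1 := (isDRB_iff (A i) (A j) g).mp hg
    exact LinearMap.ext fun v => hRC i hi j hj hij g
        ⟨g.isLinear, h1.1, h1.2, hom_fil (A i) (A j) g g.isLinear h1.1 h1.2⟩ v
  have hB : ∀ v : Fin (2 * k) → HW (fun i => Fin (A i).g ⊕ Fin (A i).g) n,
      (∀ r, IsRatP n (fun i => pData (A i)) (v r)) →
      ∃ q : ℚ, (α : MultilinearMap ℂ
        (fun _ : Fin (2 * k) => HW (fun i => Fin (A i).g ⊕ Fin (A i).g) n) ℂ) v =
          (2 * Real.pi * Complex.I) ^ k * q := by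
    intro v hv
    apply hα.2
    intro r i m
    exact (mem_pData_Q _ _).mp (hv r i m)
  have hA : ∀ v : Fin (2 * k) → HW (fun i => Fin (A i).g ⊕ Fin (A i).g) n,
      (∀ r i m j, IsAlgebraic ℚ (v r i m j)) → IsAlgebraic ℚ ((α : MultilinearMap ℂ
        (fun _ : Fin (2 * k) => HW (fun i => Fin (A i).g ⊕ Fin (A i).g) n) ℂ) v) := hα.1
  have hϖ := Complex.two_pi_I_ne_zero
  have hWW : ∀ i, (F i).isW → i ∈ W := fun i hi => (Finset.mem_sdiff.mp ((hFW i).mp hi)).1
  -- links of places of unitary type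
  have hWl : ∀ (s : Emb K) (t' : Emb K × Fin 2), (F s.1).isW →
      (F t'.1.1).isS ∨ (F t'.1.1).isW → Lk n (fun i => pData (A i)) (α : MultilinearMap ℂ
        (fun _ : Fin (2 * k) => HW (fun i => Fin (A i).g ⊕ Fin (A i).g) n) ℂ) F (s, 0) t' →
      t'.1 = s ∨ t'.1 = conjT s := by
    intro s t' hs ht' h
    refine w_link n A _ F hϖ hB hA ?_ s t' hs ht' h
    rintro ⟨i, σ⟩ ⟨j, τ⟩ hs ht h1 h2
    simp only at hs ht ⊢
    rcases ht with ht | ht
    · obtain ⟨σ', hσ'⟩ := hsep.pure ⟨j, hFS j ht⟩ i (hWW i hs)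
      obtain ⟨g, hg⟩ := Helper84.exists_aut σ σ'
      have hreal : ∀ τ : K j →+* ℂ, ComplexEmbedding.conjugate τ = τ := by
        have := (hS j (hFS j ht)).1
        exact fun τ => ComplexEmbedding.isReal_iff.mp (IsTotallyReal.complexEmbedding_isReal τ)
      refine ⟨g, fun hc => ?_⟩
      have h3 := hc.mp (by rw [(hFD i hs).1, hg]; exact hσ')
      obtain ⟨F', hF', -⟩ := exists_SW (Or.inl ht)
      have r1 : F'.ρ = (F j).toUF.ρ := RingHom.ext fun x => LinearMap.ext fun v => hF' x v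
      rw [← r1] at h3
      refine not_def_of_real (A j) F'.ρ (fun x => isEnd_of_isDRB (A j) _ (F'.hρ x))
        (hreal ((g : ℂ →+* ℂ).comp τ)) ⟨F'.e ((g : ℂ →+* ℂ).comp τ) 0, ?_⟩ h3
      rw [F'.proj_e, if_pos rfl]
      intro h0
      have h4 := F'.co_e ((g : ℂ →+* ℂ).comp τ) 0 ((g : ℂ →+* ℂ).comp τ) 0
      rw [h0, map_zero, if_pos ⟨rfl, rfl⟩] at h4
      exact zero_ne_one h4
    · obtain ⟨g, hg⟩ := hsep.sep i (hWW i hs) j (hWW j ht) σ τ h1 h2
      refine ⟨g, fun hc => hg ?_⟩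
      rw [(hFD i hs).1, (hFD j ht).1] at hc
      exact hc
  have hCM' : OddMultiplicityFree (fun i : {i // i ∈ (W \ T) ∪ T} => K i.1) ∨
      ((W \ T) = ∅ ∧ (LowDimCM A n K T ∨ PrimeFamCM A n K T k)) := by
    rcases hCM with h | ⟨h, h'⟩
    · refine Or.inl (omf_congr K (funext fun i => propext ?_) h)
      rw [Finset.sdiff_union_self_eq_union, Finset.mem_union]
    · exact Or.inr ⟨by rw [h, Finset.empty_sdiff], h'⟩
  refine hodge_of_factors A n K (W \ T) T (fun i hi σ => ?_) hT F hFT hFW G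
    (fun i => hFG i.1 i.2) (fun i hi => (hFD i hi).2) k hCM' α hα ?_ ?_ hWl ?_
  · have := (hW i (Finset.mem_sdiff.mp hi).1).choose
    exact fun hσ => IsTotallyComplex.complexEmbedding_not_isReal σ
      (ComplexEmbedding.isReal_iff.mpr hσ)
  · intro s s' hs hs' M _ hM
    exact link_S n (fun i => pData (A i)) _ F hϖ hB hA (t := (s, 0)) (t' := (s', 0))
      hs hs' M hM (hG A) (fun i j f hf v => (hod_comm f hf v).symm)
  · intro s ε t' hs ht' h
    exact Helper36.E.no_link_P n A _ F hB hA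
      (fun i j hi hj hij g hg => hQd i (hFQ i hi) j (hFQ j hj) hij g hg)
      (fun i hi => hQC.degree i (hFQ i hi))
      (fun i j hi hj hij => hQC.pair i (hFQ i hi) j (hFQ j hj) hij)
      (fun i j hi hj => hQW i (hFQ i hi) j (hWW j hj))
      (fun s t' hs ht' h => hWl s t' hs (Or.inr ht') h) s ε t' hs ht' h
  · intro s hs Z hZ
    exact exists_R n (fun i => pData (A i)) _ F hϖ hB hA
      (fun i j hi hj hij g hg => hRd i (hFR i hi) j (hFR j hj) hij g hg) s hs Z hZ

end Pool.Agent.Helper8.E
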