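import Pool.Agent.Helper8.E.Setup

/-!
The representations of dimension two of the Lie algebra of symmetries of a family.
-/

namespace Pool.Agent.Helper8.E

open Module NumberField Pool.Agent.Helper7 Pool.Agent.Helper24 Pool.Agent.Helper36 Matrix
open Pool.Agent.GPC (Emb)
open Pool.Agent.Helper8.D (Sym QF ent ent_apply ent_act ent_mul ent_trace ent_proj symI ent_irr
  SS vl vl_inv mkS vl_mkS brS vl_brS cS cS_apply entS entS_apply entS_br cS_br)

set_option linter.unusedSectionVars false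

section family

variable {I : Type} [Fintype I] [DecidableEq I] (n : I → ℕ)
  {κ : I → Type} [∀ i, Fintype (κ i)] [∀ i, DecidableEq (κ i)] {ϖ : ℂ}
  (P : ∀ i, PData (κ i) ϖ)
  {K : I → Type} [∀ i, Field (K i)] [∀ i, NumberField (K i)]
  {k : ℕ} (α : MultilinearMap ℂ (fun _ : Fin (2 * k) => HW κ n) ℂ)
  (F : ∀ i, Fac5 (P i) (K i))

/-- the representation of dimension two attached to a place and an index -/
noncomputable def AA (s : Emb K) (ε : Fin 2) : GG κ →ₗ[ℂ] Matrix (Fin 2) (Fin 2) ℂ :=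
  ((F s.1).A s.2 ε) ∘ₗ ((LinearMap.proj s.1).prodMap LinearMap.id)

lemma AA_apply (s : Emb K) (ε : Fin 2) (X : GG κ) :
    AA P F s ε X = (F s.1).A s.2 ε (X.1 s.1, X.2) := rfl

lemma AA_tr (s : Emb K) (ε : Fin 2) {X : GG κ} (hX : ∀ i, Sym (P i) (X.1 i) X.2) :
    (AA P F s ε X).trace = X.2 := (F s.1).A_tr s.2 ε (hX s.1)

lemma AA_br (s : Emb K) (ε : Fin 2) {X Y : GG κ} (hX : ∀ i, Sym (P i) (X.1 i) X.2)
    (hY : ∀ i, Sym (P i) (Y.1 i) Y.2) : AA P F s ε (X * Y - Y * X) =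
      AA P F s ε X * AA P F s ε Y - AA P F s ε Y * AA P F s ε X := by
  have h1 : AA P F s ε (X * Y - Y * X) =
      (F s.1).A s.2 ε (X.1 s.1 * Y.1 s.1 - Y.1 s.1 * X.1 s.1, 0) := by
    rw [AA_apply]
    congr 1
    refine Prod.ext rfl ?_
    show X.2 * Y.2 - Y.2 * X.2 = 0
    ring
  rw [h1]
  exact (F s.1).A_br s.2 ε (hX s.1) (hY s.1)

/-- the representation of dimension two, on the symmetries -/
noncomputable def AS (t : Emb K × Fin 2) : SS n P α →ₗ[ℂ] Matrix (Fin 2) (Fin 2) ℂ :=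
  (AA P F t.1 t.2) ∘ₗ vl n P α

lemma AS_apply (t : Emb K × Fin 2) (X : SS n P α) :
    AS n P α F t X = AA P F t.1 t.2 (vl n P α X) := rfl

lemma AS_br (t : Emb K × Fin 2) (X Y : SS n P α) : AS n P α F t (brS n P α X Y) =
    AS n P α F t X * AS n P α F t Y - AS n P α F t Y * AS n P α F t X :=
  AA_br P F t.1 t.2 (symI n P α (vl_inv n P α X)) (symI n P α (vl_inv n P α Y))

lemma AS_tr (t : Emb K × Fin 2) (X : SS n P α) : (AS n P α F t X).trace = cS n P α X :=
  AA_tr P F t.1 t.2 (symI n P α (vl_inv n P α X))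

variable (hϖ : ϖ ≠ 0)
  (hB : ∀ v : Fin (2 * k) → HW κ n, (∀ r, IsRatP n P (v r)) → ∃ q : ℚ, α v = ϖ ^ k * q)
  (hA : ∀ v : Fin (2 * k) → HW κ n, (∀ r i m j, IsAlgebraic ℚ (v r i m j)) →
      IsAlgebraic ℚ (α v))

include hϖ hB hA in
/-- a representation of dimension two which is the one on an eigenspace up to scalars -/
lemma surj_of_ent (i : I) (F' : UF (P i) (K i) 2) (σ : K i →+* ℂ)
    (B : SS n P α →ₗ[ℂ] Matrix (Fin 2) (Fin 2) ℂ)
    (hbr : ∀ X Y, B (brS n P α X Y) = B X * B Y - B Y * B X)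
    (hs : ∀ X, ∃ s : ℂ, entS n P α i F' σ X = B X + s • 1)
    (Z : Matrix (Fin 2) (Fin 2) ℂ) (hZ : Z.trace = 0) : ∃ X, B X = Z := by
  have hirr : ∀ U : Submodule ℂ (Fin 2 → ℂ),
      (∀ X, ∀ v ∈ U, B X *ᵥ v ∈ U) → U = ⊥ ∨ U = ⊤ := by
    intro U hU
    refine ent_irr n P α hϖ hB hA i F' σ U (fun X hX v hv => ?_)
    obtain ⟨s, hs'⟩ := hs (mkS n P α X hX)
    have h1 : ent F' σ (X.1 i) = B (mkS n P α X hX) + s • 1 := hs'
    rw [h1, Matrix.add_mulVec, Matrix.smul_mulVec, Matrix.one_mulVec]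
    exact U.add_mem (hU _ v hv) (U.smul_mem _ hv)
  have h1 : Z ∈ LinearMap.range B := by
    refine sl2_mem _ ?_ ?_ ?_ Z hZ
    · rintro _ ⟨X, rfl⟩ _ ⟨Y, rfl⟩
      exact ⟨brS n P α X Y, hbr X Y⟩
    · intro v hv
      by_contra hcon
      push Not at hcon
      rcases hirr (Submodule.span ℂ {v}) (by
        intro X w hw
        obtain ⟨a, rfl⟩ := Submodule.mem_span_singleton.mp hw
        obtain ⟨c, hc⟩ := hcon _ ⟨X, rfl⟩
        rw [Matrix.mulVec_smul, hc]
        exact Submodule.smul_mem _ _ (Submodule.smul_mem _ _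
          (Submodule.mem_span_singleton_self v))) with h | h
      · exact hv ((Submodule.span_singleton_eq_bot).mp h)
      · have h2 : finrank ℂ (Submodule.span ℂ {v}) = 1 := finrank_span_singleton hv
        rw [h, finrank_top, Module.finrank_fin_fun] at h2
        omega
    · intro t ht
      obtain ⟨c, hc⟩ := Module.End.exists_eigenvalue (Matrix.toLin' t)
      refine ⟨c, ?_⟩
      rcases hirr (LinearMap.ker (Matrix.toLin' t - c • LinearMap.id)) (by
        intro X v hv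
        rw [LinearMap.mem_ker, LinearMap.sub_apply, LinearMap.smul_apply, LinearMap.id_apply,
          Matrix.toLin'_apply, sub_eq_zero] at hv ⊢
        rw [Matrix.mulVec_mulVec, ← ht _ ⟨X, rfl⟩, ← Matrix.mulVec_mulVec, hv,
          Matrix.mulVec_smul]) with h | h
      · exfalso
        obtain ⟨v, hv⟩ := hc.exists_hasEigenvector
        apply hv.2
        have h3 : v ∈ LinearMap.ker (Matrix.toLin' t - c • LinearMap.id) := by
          rw [LinearMap.mem_ker, LinearMap.sub_apply, LinearMap.smul_apply, LinearMap.id_apply,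
            hv.apply_eq_smul, sub_self]
        rw [h] at h3
        exact (Submodule.mem_bot ℂ).mp h3
      · have h3 : Matrix.toLin' t = c • LinearMap.id := by
          apply LinearMap.ext
          intro v
          have h4 : v ∈ LinearMap.ker (Matrix.toLin' t - c • LinearMap.id) := by
            rw [h]; trivial
          rw [LinearMap.mem_ker, LinearMap.sub_apply, sub_eq_zero] at h4
          exact h4
        have h4 : t = Matrix.toLin'.symm (c • LinearMap.id) := by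
          rw [← h3, LinearEquiv.symm_apply_apply]
        rw [h4, map_smul]
        congr 1
        exact LinearMap.toMatrix'_id
  obtain ⟨X, hX⟩ := h1
  exact ⟨X, hX⟩

include hϖ hB hA in
/-- the representations are onto the matrices of trace zero -/
theorem AS_surj (t : Emb K × Fin 2) (ht : (F t.1.1).isP)
    (Z : Matrix (Fin 2) (Fin 2) ℂ) (hZ : Z.trace = 0) : ∃ X, AS n P α F t X = Z := by
  obtain ⟨⟨i, σ⟩, ε⟩ := t
  simp only at ht
  have hAS : ∀ X, AS n P α F (⟨i, σ⟩, ε) X = (F i).A σ ε ((vl n P α X).1 i, (vl n P α X).2) :=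
    fun X => rfl
  cases hF : F i with
  | S F' h =>
    refine surj_of_ent n P α hϖ hB hA i F' σ _ (AS_br n P α F (⟨i, σ⟩, ε)) (fun X => ⟨0, ?_⟩) Z hZ
    rw [zero_smul, add_zero, hAS, hF]
    rfl
  | W F' h =>
    refine surj_of_ent n P α hϖ hB hA i F' σ _ (AS_br n P α F (⟨i, σ⟩, ε))
      (fun X => ⟨((ent F' σ ((vl n P α X).1 i)).trace - (vl n P α X).2) / 2, ?_⟩) Z hZ
    rw [hAS, hF]
    show ent F' σ ((vl n P α X).1 i) = Fac5.nrW F' σ ((vl n P α X).1 i, (vl n P α X).2) + _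
    rw [Fac5.nrW_apply, sub_add_cancel]
  | Q F' =>
    have hirr : ∀ U : Submodule ℂ (Fin 4 → ℂ),
        (∀ X, ∀ v ∈ U, entS n P α i F'.toUF σ X *ᵥ v ∈ U) → U = ⊥ ∨ U = ⊤ :=
      fun U hU => ent_irr n P α hϖ hB hA i F'.toUF σ U
        (fun X hX v hv => hU (mkS n P α X hX) v hv)
    have hpol : ∀ X, GSO (F'.sf σ) (entS n P α i F'.toUF σ X) (cS n P α X) :=
      fun X => F'.gso σ (symI n P α (vl_inv n P α X) i)
    obtain ⟨X, hX⟩ := comp_surj (F'.sp σ) (cS n P α) (entS n P α i F'.toUF σ) hpol hirr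
      (brS n P α) (entS_br n P α i F'.toUF σ) (cS_br n P α) ε Z hZ
    refine ⟨X, ?_⟩
    rw [hAS, hF]
    exact hX
  | R F' => rw [hF] at ht; exact ht.elim
  | T F' => rw [hF] at ht; exact ht.elim

include hϖ hB hA in
/-- the two representations of a place of kind `Q` are not conjugate -/
theorem AS_not_conj (s : Emb K) (hs : (F s.1).isQ) :
    ¬ ConjRep (AS n P α F) (s, (0 : Fin 2)) (s, (1 : Fin 2)) := by
  obtain ⟨i, σ⟩ := s
  simp only at hs
  have hAS : ∀ ε X, AS n P α F (⟨i, σ⟩, ε) X =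
    (F i).A σ ε ((vl n P α X).1 i, (vl n P α X).2) := fun ε X => rfl
  rintro ⟨Q, hQ, h⟩
  simp only [hAS] at h
  cases hF : F i with
  | S F' h' => rw [hF] at hs; exact hs.elim
  | W F' h' => rw [hF] at hs; exact hs.elim
  | Q F' =>
    rw [hF] at h
    have hirr : ∀ U : Submodule ℂ (Fin 4 → ℂ),
        (∀ X, ∀ v ∈ U, entS n P α i F'.toUF σ X *ᵥ v ∈ U) → U = ⊥ ∨ U = ⊤ :=
      fun U hU => ent_irr n P α hϖ hB hA i F'.toUF σ U
        (fun X hX v hv => hU (mkS n P α X hX) v hv)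
    have hpol : ∀ X, GSO (F'.sf σ) (entS n P α i F'.toUF σ X) (cS n P α X) :=
      fun X => F'.gso σ (symI n P α (vl_inv n P α X) i)
    exact comp_not_conj (F'.sp σ) (cS n P α) (entS n P α i F'.toUF σ) hpol hirr ⟨Q, hQ, h⟩
  | R F' => rw [hF] at hs; exact hs.elim
  | T F' => rw [hF] at hs; exact hs.elim

end family

end Pool.Agent.Helper8.E
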