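import Pool.Agent.Helper8.E.HodgeIn
import Pool.Agent.Helper7.U.Fam

/-!
There are no relations between the weights of factors of unitary type and of CM type, if the Galois
modules of odd functions are irreducible and pairwise not isomorphic.
-/

namespace Pool.Agent.Helper8.E

open Module NumberField Pool.Agent.Helper7 Pool.Agent.Helper24 Matrix
open Pool.Agent.GPC (Emb)
open Pool.Agent.Helper8.D (Sym QF ent ent_apply ent_act ent_trace symI)

set_option linter.unusedSectionVars false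

section family

variable {I : Type} [Fintype I] [DecidableEq I] (n : I → ℕ)
  {κ : I → Type} [∀ i, Fintype (κ i)] [∀ i, DecidableEq (κ i)] {ϖ : ℂ}
  (P : ∀ i, PData (κ i) ϖ)
  {K : I → Type} [∀ i, Field (K i)] [∀ i, NumberField (K i)]
  {k : ℕ} (α : MultilinearMap ℂ (fun _ : Fin (2 * k) => HW κ n) ℂ)
  (F : ∀ i, Fac5 (P i) (K i)) (N : Finset I)

/-- the weight at a place of a part of the family -/
noncomputable def chN (t : Emb (fun i : {i // i ∈ N} => K i.1)) (X : GG κ) : ℂ :=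
  ch P (FU P F) ⟨t.1.1, t.2⟩ X

lemma chN_conj (t : Emb (fun i : {i // i ∈ N} => K i.1)) (X : GG κ) (hX : IsInv n P α X) :
    chN P F N t X + chN P F N (conjT t) X = X.2 :=
  ch_conj n P (FU P F) α (fun i => (F i).rk_pos) ⟨t.1.1, t.2⟩ X hX

lemma chN_rat (i : {i // i ∈ N}) (X : GG κ) (hX : IsInv n P α X) (hr : IsRatl P X) :
    ∃ x : K i.1, ∀ σ : K i.1 →+* ℂ, chN P F N ⟨i, σ⟩ X = σ x :=
  tw_rat (FU P F i.1) (X.1 i.1) ((symI n P α hX i.1).commF _) (hr.1 i.1)

/-- relations between the weights -/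
def relE : Submodule ℚ (Emb (fun i : {i // i ∈ N} => K i.1) → ℚ) where
  carrier := {u | (∀ t, u (conjT t) = - u t) ∧
    ∀ X, IsInv n P α X → IsRatl P X → ∑ t, (u t : ℂ) * chN P F N t X = 0}
  zero_mem' := ⟨fun t => by simp, fun X _ _ => by simp⟩
  add_mem' := by
    rintro u v ⟨hu1, hu2⟩ ⟨hv1, hv2⟩
    refine ⟨fun t => by rw [Pi.add_apply, Pi.add_apply, hu1, hv1]; ring, fun X hX hr => ?_⟩
    simp only [Pi.add_apply, Rat.cast_add, add_mul, Finset.sum_add_distrib]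
    rw [hu2 X hX hr, hv2 X hX hr, add_zero]
  smul_mem' := by
    rintro c u ⟨hu1, hu2⟩
    refine ⟨fun t => by rw [Pi.smul_apply, Pi.smul_apply, hu1]; simp, fun X hX hr => ?_⟩
    simp only [Pi.smul_apply, smul_eq_mul, Rat.cast_mul, mul_assoc, ← Finset.mul_sum]
    rw [hu2 X hX hr, mul_zero]

lemma mem_relE (u : Emb (fun i : {i // i ∈ N} => K i.1) → ℚ) : u ∈ relE n P α F N ↔
    (∀ t, u (conjT t) = - u t) ∧
    ∀ X, IsInv n P α X → IsRatl P X → ∑ t, (u t : ℂ) * chN P F N t X = 0 := Iff.rfl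

include F in
lemma actT_conjE (τ : ℂ ≃+* ℂ) (t : Emb (fun i : {i // i ∈ N} => K i.1)) :
    actT τ (conjT t) = conjT (actT τ t) := by
  obtain ⟨i, σ⟩ := t
  have h : (τ : ℂ →+* ℂ).comp (ComplexEmbedding.conjugate σ) =
      ComplexEmbedding.conjugate ((τ : ℂ →+* ℂ).comp σ) := by
    refine RingHom.ext fun x => ?_
    have h1 := (F i.1).toUF.hcc σ x
    have h2 := (F i.1).toUF.hcc ((τ : ℂ →+* ℂ).comp σ) x
    rw [ComplexEmbedding.conjugate_coe_eq, ← h2, RingHom.comp_apply, RingHom.comp_apply, h1,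
      ComplexEmbedding.conjugate_coe_eq]
  show (⟨i, (τ : ℂ →+* ℂ).comp (ComplexEmbedding.conjugate σ)⟩ :
      Emb (fun i : {i // i ∈ N} => K i.1)) =
    ⟨i, ComplexEmbedding.conjugate ((τ : ℂ →+* ℂ).comp σ)⟩
  rw [h]

lemma relE_stable (τ : ℂ ≃+* ℂ) (u : Emb (fun i : {i // i ∈ N} => K i.1) → ℚ)
    (hu : u ∈ relE n P α F N) : (fun t => u (actT τ t)) ∈ relE n P α F N := by
  rw [mem_relE] at hu ⊢
  refine ⟨fun t => ?_, fun X hX hr => ?_⟩
  · show u (actT τ (conjT t)) = - u (actT τ t)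
    rw [actT_conjE P F, hu.1]
  · have h1 : ∀ t : Emb (fun i : {i // i ∈ N} => K i.1),
        τ (chN P F N t X) = chN P F N (actT τ t) X := by
      rintro ⟨i, σ⟩
      obtain ⟨x, hx⟩ := chN_rat n P α F N i X hX hr
      show τ (chN P F N ⟨i, σ⟩ X) = chN P F N ⟨i, (τ : ℂ →+* ℂ).comp σ⟩ X
      rw [hx, hx]
      rfl
    have h2 := hu.2 X hX hr
    rw [← Fintype.sum_equiv (actT τ) (fun t => (u (actT τ t) : ℂ) * chN P F N (actT τ t) X) _
      (fun _ => rfl)] at h2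
    simp only [← h1] at h2
    have h3 : τ (∑ t, (u (actT τ t) : ℂ) * chN P F N t X) = 0 := by
      rw [map_sum, ← h2]
      refine Finset.sum_congr rfl fun t _ => ?_
      rw [map_mul, map_ratCast]
    exact (map_eq_zero τ).mp h3

variable (hϖ : ϖ ≠ 0)
  (hB : ∀ v : Fin (2 * k) → HW κ n, (∀ r, IsRatP n P (v r)) → ∃ q : ℚ, α v = ϖ ^ k * q)
  (hA : ∀ v : Fin (2 * k) → HW κ n, (∀ r i m j, IsAlgebraic ℚ (v r i m j)) →
      IsAlgebraic ℚ (α v))

include hϖ hB hA in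
lemma relE_eq_zero (hMF : MF (fun i : {i // i ∈ N} => K i.1))
    (hNk : ∀ i ∈ N, (F i).isW ∨ (F i).isT)
    (hfull : ∀ i, (F i).isW → ∀ f, IsDRB (P i) (P i) f → ∃ x, ∀ v, f v = (FU P F i).ρ x v)
    (hNP : ∀ i, (F i).isT → ∀ v ∈ (P i).Q, v ≠ 0 → ¬ ∃ (w : ℂ) (u : κ i → ℂ),
      (∀ j, IsAlgebraic ℚ (u j)) ∧ v = w • u)
    (u : Emb (fun i : {i // i ∈ N} => K i.1) → ℚ) (hu : u ∈ relE n P α F N)
    (t : Emb (fun i : {i // i ∈ N} => K i.1)) : u t = 0 := by
  classical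
  by_contra hne
  obtain ⟨i, σ₀⟩ := t
  have hall := hMF (relE n P α F N) (fun u hu => hu.1) (fun τ u hu => relE_stable n P α F N τ u hu)
    i ⟨u, hu, σ₀, hne⟩
  -- all weights at `i` are equal
  have hwt : ∀ σ : K i.1 →+* ℂ, ∀ X, IsInv n P α X → IsRatl P X →
      chN P F N ⟨i, σ⟩ X = X.2 / 2 := by
    intro σ X hX hr
    let w : Emb (fun i : {i // i ∈ N} => K i.1) → ℚ := fun t =>
      (if t = ⟨i, σ⟩ then 1 else 0) - (if conjT t = ⟨i, σ⟩ then 1 else 0)
    have hw := hall w (fun t => by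
      simp only [w, conjT_conjT]; ring) (fun t htne => by
      have h1 : t ≠ ⟨i, σ⟩ := fun h => htne (by rw [h])
      have h2 : conjT t ≠ ⟨i, σ⟩ := fun h => htne (by
        have h3 : (conjT t).1 = i := by rw [h]
        exact h3)
      simp only [w, if_neg h1, if_neg h2, sub_zero])
    have h1 := hw.2 X hX hr
    have h2 : ∑ t, ((w t : ℚ) : ℂ) * chN P F N t X =
        chN P F N ⟨i, σ⟩ X - chN P F N (conjT ⟨i, σ⟩) X := by
      have h3 : ∀ t, ((w t : ℚ) : ℂ) * chN P F N t X = (if t = ⟨i, σ⟩ then chN P F N t X else 0) -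
          (if t = conjT ⟨i, σ⟩ then chN P F N t X else 0) := by
        intro t
        have h4 : (conjT t = ⟨i, σ⟩) ↔ (t = conjT ⟨i, σ⟩) :=
          ⟨fun h => by rw [← h, conjT_conjT], fun h => by rw [h, conjT_conjT]⟩
        simp only [w, h4]
        split_ifs <;> simp
      simp only [h3]
      rw [Finset.sum_sub_distrib, Finset.sum_ite_eq' Finset.univ, Finset.sum_ite_eq' Finset.univ]
      simp
    rw [h2] at h1
    have h3 := chN_conj n P α F N ⟨i, σ⟩ X hX
    linear_combination h1 / 2 + h3 / 2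
  have hwt' : ∀ σ : K i.1 →+* ℂ, ∀ X, IsInv n P α X → IsRatl P X →
      tw (F i.1).toUF σ (X.1 i.1) = X.2 / 2 := hwt
  have hkind := hNk i.1 i.2
  have hfull' := hfull i.1
  have hNP' := hNP i.1
  -- a rational symmetry acts as a scalar: impossible for CM type
  cases hF : F i.1 with
  | S F' h' => rw [hF] at hkind; rcases hkind with h | h <;> exact h.elim
  | Q F' => rw [hF] at hkind; rcases hkind with h | h <;> exact h.elim
  | R F' => rw [hF] at hkind; rcases hkind with h | h <;> exact h.elim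
  | W F' hcx =>
    have hw2 : ∀ X, IsInv n P α X → IsRatl P X → tw F' σ₀ (X.1 i.1) = X.2 / 2 := by
      intro X hX hr
      have := hwt' σ₀ X hX hr
      rw [hF] at this
      exact this
    have hρ : ∀ f, IsDRB (P i.1) (P i.1) f → ∃ x, ∀ v, f v = F'.ρ x v := by
      intro f hf
      obtain ⟨x, hx⟩ := hfull' (by rw [hF]; trivial) f hf
      refine ⟨x, fun v => ?_⟩
      rw [hx]
      show (F i.1).toUF.ρ x v = _
      rw [hF]; rfl
    have htr : ∀ X, IsInv n P α X → (ent F' σ₀ (X.1 i.1)).trace = X.2 := by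
      intro X hX
      have h1 := lin_of_rat n P α hϖ hB
        ((Matrix.traceLinearMap (Fin 2) ℂ ℂ) ∘ₗ (ent F' σ₀) ∘ₗ (LinearMap.proj i.1) ∘ₗ
          (LinearMap.fst ℂ ((i : I) → Module.End ℂ (κ i → ℂ)) ℂ) -
          (LinearMap.snd ℂ ((i : I) → Module.End ℂ (κ i → ℂ)) ℂ)) (fun X hX hr => by
          have h2 := hw2 X hX hr
          have h3 := ent_trace F' (by norm_num) σ₀ (X.1 i.1)
          show (ent F' σ₀ (X.1 i.1)).trace - X.2 = 0
          rw [h3, h2]
          push_cast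
          ring) X hX
      exact sub_eq_zero.mp h1
    have hact : ∀ X, IsInv n P α X → ∀ (a : Fin 2) v, F'.co σ₀ a (X.1 i.1 v) =
        ∑ b, ent F' σ₀ (X.1 i.1) a b * F'.co σ₀ b v := fun X hX a v =>
      UF.Comm.co_act ((symI n P α hX i.1).commF F') σ₀ a v
    obtain ⟨m, c, f, hf, hβ⟩ := bilin_of_inv n P α hϖ hB hA i.1 i.1
      ((LinearMap.mul ℂ ℂ).compl₁₂ (F'.co σ₀ 0) (F'.co σ₀ 1) -
        (LinearMap.mul ℂ ℂ).compl₁₂ (F'.co σ₀ 1) (F'.co σ₀ 0)) (by
        intro X hX u v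
        have h1 := htr X hX
        rw [Matrix.trace_fin_two] at h1
        simp only [LinearMap.sub_apply, LinearMap.compl₁₂_apply, LinearMap.mul_apply']
        rw [hact X hX 0 u, hact X hX 1 u, hact X hX 0 v, hact X hX 1 v,
          Fin.sum_univ_two, Fin.sum_univ_two, Fin.sum_univ_two, Fin.sum_univ_two, ← h1]
        ring)
    have h1 := hβ (F'.e σ₀ 0) (F'.e σ₀ 1)
    simp only [LinearMap.sub_apply, LinearMap.compl₁₂_apply, LinearMap.mul_apply'] at h1
    rw [co_e_same, co_e_same, co_e_same, co_e_same, if_pos rfl, if_pos rfl,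
      if_neg (by decide), if_neg (by decide), mul_one, mul_zero, sub_zero] at h1
    have h2 : ∀ l, (P i.1).ψ (f l (F'.e σ₀ 0)) (F'.e σ₀ 1) = 0 := by
      intro l
      obtain ⟨x, hx⟩ := hρ (f l) (hf l)
      rw [hx, F'.rho_e, map_smul, LinearMap.smul_apply,
        F'.psi_e _ _ _ _ (Ne.symm (hcx σ₀)), smul_zero]
    rw [Finset.sum_eq_zero (fun l _ => by rw [h2, mul_zero])] at h1
    exact one_ne_zero h1
  | T F' =>
    have hw2 : ∀ σ X, IsInv n P α X → IsRatl P X → tw F' σ (X.1 i.1) = X.2 / 2 := by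
      intro σ X hX hr
      have := hwt' σ X hX hr
      rw [hF] at this
      exact this
    have hscal : ∀ X, IsInv n P α X → IsRatl P X → ∀ v, X.1 i.1 v = (X.2 / 2) • v := by
      intro X hX hr v
      have h1 := F'.ext_e (X.1 i.1) ((X.2 / 2) • (LinearMap.id : Module.End ℂ (κ i.1 → ℂ)))
        (fun σ j => ?_) v
      · rw [h1]; rfl
      · have hj : j = 0 := Subsingleton.elim _ _
        subst hj
        rw [act_one F' _ ((symI n P α hX i.1).commF F') σ, hw2 σ X hX hr]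
        rfl
    have hlam : F'.lam 0 ≠ 0 := by
      intro h0
      have h1 := F'.e_eq σ₀ 0
      rw [h0, map_zero] at h1
      exact e_ne F' σ₀ 0 h1
    -- a rational line is spanned by an algebraic vector
    have h1 := algebraic_of_stable n P α hϖ hB hA i.1 {F'.lam 0}
      (fun v hv => by rw [Set.mem_singleton_iff.mp hv]; exact F'.lam_rat 0)
      (fun Y hY hYr v hv => by
        rw [hscal Y hY hYr]
        exact Submodule.smul_mem _ _ (Submodule.subset_span hv))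
    have h2 : F'.lam 0 ∈ Submodule.span ℂ
        {v | (∀ j, IsAlgebraic ℚ (v j)) ∧ v ∈ Submodule.span ℂ {F'.lam 0}} :=
      h1 (Submodule.subset_span rfl)
    obtain ⟨v, ⟨hv1, hv2⟩, hv0⟩ : ∃ v ∈ {v | (∀ j, IsAlgebraic ℚ (v j)) ∧
        v ∈ Submodule.span ℂ {F'.lam 0}}, v ≠ 0 := by
      by_contra hcon
      push Not at hcon
      have h3 : Submodule.span ℂ {v | (∀ j, IsAlgebraic ℚ (v j)) ∧
          v ∈ Submodule.span ℂ {F'.lam 0}} ≤ ⊥ := by
        rw [Submodule.span_le]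
        intro v hv
        rw [SetLike.mem_coe, Submodule.mem_bot]
        exact hcon v hv
      exact hlam ((Submodule.mem_bot ℂ).mp (h3 h2))
    obtain ⟨c, hc⟩ := Submodule.mem_span_singleton.mp hv2
    have hc0 : c ≠ 0 := by
      rintro rfl
      rw [zero_smul] at hc
      exact hv0 hc.symm
    refine hNP' (by rw [hF]; trivial) _ (F'.lam_rat 0) hlam ⟨c⁻¹, v, hv1, ?_⟩
    rw [← hc, smul_smul, inv_mul_cancel₀ hc0, one_smul]

include hϖ hB hA in
/-- there are no relations -/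
theorem no_rel (hMF : MF (fun i : {i // i ∈ N} => K i.1))
    (hNk : ∀ i, i ∈ N ↔ ¬ (F i).isH)
    (hfull : ∀ i, (F i).isW → ∀ f, IsDRB (P i) (P i) f → ∃ x, ∀ v, f v = (FU P F i).ρ x v)
    (hNP : ∀ i, (F i).isT → ∀ v ∈ (P i).Q, v ≠ 0 → ¬ ∃ (w : ℂ) (u : κ i → ℂ),
      (∀ j, IsAlgebraic ℚ (u j)) ∧ v = w • u)
    (z : Emb K → ℤ) (hz : ∀ t, z (conjT t) = - z t) (hz0 : ∀ t, (F t.1).isH → z t = 0)
    (hzX : ∀ X, IsInv n P α X → ∑ t, (z t : ℂ) * ch P (FU P F) t X = 0) (t : Emb K) :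
    z t = 0 := by
  classical
  by_cases ht : (F t.1).isH
  · exact hz0 t ht
  have htN : t.1 ∈ N := (hNk t.1).mpr ht
  have hmem : (fun t : Emb (fun i : {i // i ∈ N} => K i.1) => (z ⟨t.1.1, t.2⟩ : ℚ)) ∈
      relE n P α F N := by
    rw [mem_relE]
    refine ⟨fun t => ?_, fun X hX _ => ?_⟩
    · have h1 := hz ⟨t.1.1, t.2⟩
      have h2 : z ⟨(conjT t).1.1, (conjT t).2⟩ = - z ⟨t.1.1, t.2⟩ := h1
      show (z ⟨(conjT t).1.1, (conjT t).2⟩ : ℚ) = - (z ⟨t.1.1, t.2⟩ : ℚ)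
      rw [h2]
      push_cast
      ring
    · have h1 := hzX X hX
      have h2 : ∑ t, (z t : ℂ) * ch P (FU P F) t X =
          ∑ t : Emb (fun i : {i // i ∈ N} => K i.1),
            (z ⟨t.1.1, t.2⟩ : ℂ) * ch P (FU P F) ⟨t.1.1, t.2⟩ X := by
        rw [Fintype.sum_sigma, Fintype.sum_sigma]
        have h3 : ∀ i : I, i ∉ N → ∑ σ : K i →+* ℂ,
            (z ⟨i, σ⟩ : ℂ) * ch P (FU P F) ⟨i, σ⟩ X = 0 := fun i hi =>
          Finset.sum_eq_zero fun σ _ => by
            have h4 : (F i).isH := by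
              by_contra hcon
              exact hi ((hNk i).mpr hcon)
            rw [hz0 ⟨i, σ⟩ h4]; simp
        rw [← Finset.sum_subset (Finset.subset_univ N) (fun i _ hi => h3 i hi)]
        exact (Finset.sum_coe_sort N (fun i => ∑ σ : K i →+* ℂ,
          (z ⟨i, σ⟩ : ℂ) * ch P (FU P F) ⟨i, σ⟩ X)).symm
      rw [h2] at h1
      rw [← h1]
      refine Finset.sum_congr rfl fun t _ => ?_
      push_cast
      rfl
  have h3 := relE_eq_zero n P α F N hϖ hB hA hMF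
    (fun i hi => (F i).not_H ((hNk i).mp hi)) hfull hNP _ hmem ⟨⟨t.1, htN⟩, t.2⟩
  exact_mod_cast h3

end family

end Pool.Agent.Helper8.E
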