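import Pool.Agent.Helper8.D.HodgeIn

/-!
Factors of five kinds: real type (`S`), unitary type of rank two (`W`), type III (`Q`, `R`),
complex multiplication (`T`), and the representations of dimension two attached to the places.
-/

namespace Pool.Agent.Helper8.E

open Module NumberField Pool.Agent.Helper7 Pool.Agent.Helper24 Pool.Agent.Helper36 Matrix
open Pool.Agent.Helper8.D (Sym QF ent ent_apply ent_act ent_mul ent_trace ent_proj)

set_option linter.unusedSectionVars false

section single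

variable {κ : Type} [Fintype κ] [DecidableEq κ] {ϖ : ℂ} {P : PData κ ϖ}
  {K : Type} [Field K] [NumberField K]

/-- A factor of one of the five kinds. -/
inductive Fac5 (P : PData κ ϖ) (K : Type) [Field K] [NumberField K]
  | S (F : UF P K 2) (h : ∀ σ : K →+* ℂ, ComplexEmbedding.conjugate σ = σ) : Fac5 P K
  | W (F : UF P K 2) (h : ∀ σ : K →+* ℂ, ComplexEmbedding.conjugate σ ≠ σ) : Fac5 P K
  | Q (F : QF P K 4) : Fac5 P K
  | R (F : QF P K 6) : Fac5 P K
  | T (F : UF P K 1) : Fac5 P K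

namespace Fac5

/-- the rank over the field -/
def rk : Fac5 P K → ℕ
  | .S _ _ => 2
  | .W _ _ => 2
  | .Q _ => 4
  | .R _ => 6
  | .T _ => 1

/-- the underlying factor -/
def toUF : (f : Fac5 P K) → UF P K f.rk
  | .S F _ => F
  | .W F _ => F
  | .Q F => F.toUF
  | .R F => F.toUF
  | .T F => F

/-- factors of real type -/
def isS : Fac5 P K → Prop
  | .S _ _ => True
  | _ => False

/-- factors of unitary type -/
def isW : Fac5 P K → Prop
  | .W _ _ => True
  | _ => False

/-- factors of type III, of rank four -/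
def isQ : Fac5 P K → Prop
  | .Q _ => True
  | _ => False

/-- factors of type III, of rank six -/
def isR : Fac5 P K → Prop
  | .R _ => True
  | _ => False

/-- factors of CM type -/
def isT : Fac5 P K → Prop
  | .T _ => True
  | _ => False

/-- factors whose weights are half of the multiplier -/
def isH : Fac5 P K → Prop
  | .S _ _ => True
  | .Q _ => True
  | .R _ => True
  | _ => False

/-- factors with places of dimension two pieces -/
def isP : Fac5 P K → Prop
  | .S _ _ => True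
  | .W _ _ => True
  | .Q _ => True
  | _ => False

instance (f : Fac5 P K) : Decidable f.isS := by
  cases f <;> unfold isS <;> infer_instance

instance (f : Fac5 P K) : Decidable f.isW := by
  cases f <;> unfold isW <;> infer_instance

instance (f : Fac5 P K) : Decidable f.isQ := by
  cases f <;> unfold isQ <;> infer_instance

instance (f : Fac5 P K) : Decidable f.isR := by
  cases f <;> unfold isR <;> infer_instance

instance (f : Fac5 P K) : Decidable f.isT := by
  cases f <;> unfold isT <;> infer_instance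

lemma kinds (f : Fac5 P K) : f.isS ∨ f.isW ∨ f.isQ ∨ f.isR ∨ f.isT := by
  cases f with
  | S F h => exact Or.inl trivial
  | W F h => exact Or.inr (Or.inl trivial)
  | Q F => exact Or.inr (Or.inr (Or.inl trivial))
  | R F => exact Or.inr (Or.inr (Or.inr (Or.inl trivial)))
  | T F => exact Or.inr (Or.inr (Or.inr (Or.inr trivial)))

lemma isH_of_S (f : Fac5 P K) (h : f.isS) : f.isH := by
  cases f with
  | S F h => trivial
  | _ => exact h.elim

lemma isH_of_Q (f : Fac5 P K) (h : f.isQ) : f.isH := by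
  cases f with
  | Q F => trivial
  | _ => exact h.elim

lemma isH_of_R (f : Fac5 P K) (h : f.isR) : f.isH := by
  cases f with
  | R F => trivial
  | _ => exact h.elim

lemma isP_of_S (f : Fac5 P K) (h : f.isS) : f.isP := by
  cases f with
  | S F h => trivial
  | _ => exact h.elim

lemma isP_of_W (f : Fac5 P K) (h : f.isW) : f.isP := by
  cases f with
  | W F h => trivial
  | _ => exact h.elim

lemma isP_of_Q (f : Fac5 P K) (h : f.isQ) : f.isP := by
  cases f with
  | Q F => trivial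
  | _ => exact h.elim

lemma isP_iff (f : Fac5 P K) : f.isP ↔ f.isS ∨ f.isW ∨ f.isQ := by
  cases f <;> simp [isP, isS, isW, isQ]

lemma isH_iff (f : Fac5 P K) : f.isH ↔ f.isS ∨ f.isQ ∨ f.isR := by
  cases f <;> simp [isH, isS, isQ, isR]

lemma not_H (f : Fac5 P K) (h : ¬ f.isH) : f.isW ∨ f.isT := by
  cases f with
  | S F h' => exact absurd trivial h
  | W F h' => exact Or.inl trivial
  | Q F => exact absurd trivial h
  | R F => exact absurd trivial h
  | T F => exact Or.inr trivial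

lemma not_H_of_T (f : Fac5 P K) (h : f.isT) : ¬ f.isH := by
  cases f with
  | T F => exact fun h => h
  | _ => exact h.elim

lemma not_H_of_W (f : Fac5 P K) (h : f.isW) : ¬ f.isH := by
  cases f with
  | W F h' => exact fun h => h
  | _ => exact h.elim

lemma not_R_of_P (f : Fac5 P K) (h : f.isP) : ¬ f.isR := by
  cases f with
  | R F => exact fun _ => h
  | _ => exact fun h => h

lemma not_SW (f : Fac5 P K) (h : f.isS) (h' : f.isW) : False := by
  cases f with
  | S F h => exact h'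
  | _ => exact h

lemma not_SQ (f : Fac5 P K) (h : f.isS) (h' : f.isQ) : False := by
  cases f with
  | S F h => exact h'
  | _ => exact h

lemma not_WQ (f : Fac5 P K) (h : f.isW) (h' : f.isQ) : False := by
  cases f with
  | W F h => exact h'
  | _ => exact h

/-- the matrix, with the trace replaced by the multiplier -/
noncomputable def nrW (F : UF P K 2) (σ : K →+* ℂ) :
    (Module.End ℂ (κ → ℂ) × ℂ) →ₗ[ℂ] Matrix (Fin 2) (Fin 2) ℂ :=
  ent F σ ∘ₗ LinearMap.fst ℂ _ _ -
    (LinearMap.toSpanSingleton ℂ _ ((1 / 2 : ℂ) • (1 : Matrix (Fin 2) (Fin 2) ℂ))) ∘ₗ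
      ((Matrix.traceLinearMap (Fin 2) ℂ ℂ) ∘ₗ ent F σ ∘ₗ LinearMap.fst ℂ _ _ -
        LinearMap.snd ℂ _ _)

lemma nrW_apply (F : UF P K 2) (σ : K →+* ℂ) (X : Module.End ℂ (κ → ℂ)) (c : ℂ) :
    nrW F σ (X, c) = ent F σ X -
      (((ent F σ X).trace - c) / 2) • (1 : Matrix (Fin 2) (Fin 2) ℂ) := by
  show ent F σ X - ((ent F σ X).trace - c) • ((1 / 2 : ℂ) • (1 : Matrix (Fin 2) (Fin 2) ℂ)) = _
  rw [smul_smul]
  congr 2
  ring

/-- the representations of dimension two at a place (of kind `S`, `W` or `Q`) -/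
noncomputable def A : (f : Fac5 P K) → (σ : K →+* ℂ) → Fin 2 →
    (Module.End ℂ (κ → ℂ) × ℂ) →ₗ[ℂ] Matrix (Fin 2) (Fin 2) ℂ
  | .S F _, σ, _ => ent F σ ∘ₗ LinearMap.fst ℂ _ _
  | .W F _, σ, _ => nrW F σ
  | .Q F, σ, ε => (F.sp σ).a ε ∘ₗ (ent F.toUF σ).prodMap LinearMap.id
  | .R _, _, _ => (LinearMap.toSpanSingleton ℂ _ ((1 / 2 : ℂ) • 1)) ∘ₗ LinearMap.snd ℂ _ _
  | .T _, _, _ => (LinearMap.toSpanSingleton ℂ _ ((1 / 2 : ℂ) • 1)) ∘ₗ LinearMap.snd ℂ _ _

lemma rk_pos (f : Fac5 P K) : 0 < f.rk := by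
  cases f <;> norm_num [rk]

lemma ch_half (f : Fac5 P K) (hf : f.isH) (σ : K →+* ℂ) {X : Module.End ℂ (κ → ℂ)} {c : ℂ}
    (hX : Sym P X c) : tw f.toUF σ X = c / 2 := by
  cases f with
  | S F h =>
    have h1 := tw_conj F (by norm_num) X (hX.commF F) c hX.pol σ
    rw [h σ] at h1
    show tw F σ X = c / 2
    linear_combination h1 / 2
  | W F h => exact hf.elim
  | Q F => exact F.tw_half (by norm_num) σ hX
  | R F => exact F.tw_half (by norm_num) σ hX
  | T F => exact hf.elim

lemma A_tr (f : Fac5 P K) (σ : K →+* ℂ) (ε : Fin 2) {X : Module.End ℂ (κ → ℂ)} {c : ℂ}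
    (hX : Sym P X c) : (f.A σ ε (X, c)).trace = c := by
  cases f with
  | S F h =>
    have h1 := ch_half (.S F h) trivial σ hX
    have h2 := ent_trace F (by norm_num) σ X
    show (ent F σ X).trace = c
    have h3 : tw F σ X = c / 2 := h1
    rw [h2, h3]
    push_cast
    ring
  | W F h =>
    show (nrW F σ (X, c)).trace = c
    rw [nrW_apply, Matrix.trace_sub, Matrix.trace_smul, Matrix.trace_one, smul_eq_mul]
    simp
  | Q F => exact (F.sp σ).tr ε _ _
  | R F =>
    show (c • ((1 / 2 : ℂ) • (1 : Matrix (Fin 2) (Fin 2) ℂ))).trace = c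
    rw [Matrix.trace_smul, Matrix.trace_smul, Matrix.trace_one]
    simp
  | T F =>
    show (c • ((1 / 2 : ℂ) • (1 : Matrix (Fin 2) (Fin 2) ℂ))).trace = c
    rw [Matrix.trace_smul, Matrix.trace_smul, Matrix.trace_one]
    simp

lemma A_br (f : Fac5 P K) (σ : K →+* ℂ) (ε : Fin 2) {X Y : Module.End ℂ (κ → ℂ)} {c d : ℂ}
    (hX : Sym P X c) (hY : Sym P Y d) : f.A σ ε (X * Y - Y * X, 0) =
      f.A σ ε (X, c) * f.A σ ε (Y, d) - f.A σ ε (Y, d) * f.A σ ε (X, c) := by
  cases f with
  | S F h =>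
    show ent F σ (X * Y - Y * X) = ent F σ X * ent F σ Y - ent F σ Y * ent F σ X
    rw [map_sub, ent_mul F σ X Y (hY.commF F), ent_mul F σ Y X (hX.commF F)]
  | W F h =>
    show nrW F σ (X * Y - Y * X, 0) = nrW F σ (X, c) * nrW F σ (Y, d) -
      nrW F σ (Y, d) * nrW F σ (X, c)
    rw [nrW_apply, nrW_apply, nrW_apply, map_sub, ent_mul F σ X Y (hY.commF F),
      ent_mul F σ Y X (hX.commF F)]
    have h0 : (ent F σ X * ent F σ Y - ent F σ Y * ent F σ X).trace = 0 := by
      rw [Matrix.trace_sub, Matrix.trace_mul_comm, sub_self]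
    rw [h0, sub_zero, zero_div, zero_smul, sub_zero]
    simp only [Matrix.sub_mul, Matrix.mul_sub, Matrix.smul_mul, Matrix.mul_smul, Matrix.one_mul,
      Matrix.mul_one]
    module
  | Q F =>
    show (F.sp σ).a ε (ent F.toUF σ (X * Y - Y * X), 0) = _
    rw [map_sub, ent_mul F.toUF σ X Y (hY.commF F.toUF), ent_mul F.toUF σ Y X (hX.commF F.toUF)]
    exact (F.sp σ).br ε _ _ _ _ (F.gso σ hX) (F.gso σ hY)
  | R F =>
    show (0 : ℂ) • ((1 / 2 : ℂ) • (1 : Matrix (Fin 2) (Fin 2) ℂ)) =
      (c • ((1 / 2 : ℂ) • (1 : Matrix (Fin 2) (Fin 2) ℂ))) *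
      (d • ((1 / 2 : ℂ) • (1 : Matrix (Fin 2) (Fin 2) ℂ))) -
      (d • ((1 / 2 : ℂ) • (1 : Matrix (Fin 2) (Fin 2) ℂ))) *
      (c • ((1 / 2 : ℂ) • (1 : Matrix (Fin 2) (Fin 2) ℂ)))
    simp [smul_smul, mul_comm]
  | T F =>
    show (0 : ℂ) • ((1 / 2 : ℂ) • (1 : Matrix (Fin 2) (Fin 2) ℂ)) =
      (c • ((1 / 2 : ℂ) • (1 : Matrix (Fin 2) (Fin 2) ℂ))) *
      (d • ((1 / 2 : ℂ) • (1 : Matrix (Fin 2) (Fin 2) ℂ))) -
      (d • ((1 / 2 : ℂ) • (1 : Matrix (Fin 2) (Fin 2) ℂ))) *
      (c • ((1 / 2 : ℂ) • (1 : Matrix (Fin 2) (Fin 2) ℂ)))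
    simp [smul_smul, mul_comm]

lemma ent_one {r : ℕ} (F : UF P K r) (σ : K →+* ℂ) : ent F σ 1 = 1 := by
  ext a b
  rw [ent_apply, Module.End.one_apply, co_e_same, Matrix.one_apply]

/-- symmetries with the same representations of dimension two have the same normalised action
on the eigenspace -/
lemma nr_of_A (f : Fac5 P K) (hf : f.isP) (σ : K →+* ℂ) {X Y : Module.End ℂ (κ → ℂ)} {c : ℂ}
    (hX : Sym P X c) (hY : Sym P Y c) (h : ∀ ε, f.A σ ε (X, c) = f.A σ ε (Y, c)) (v : κ → ℂ) :
    X (proj f.toUF.ρ σ v) - tw f.toUF σ X • proj f.toUF.ρ σ v =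
      Y (proj f.toUF.ρ σ v) - tw f.toUF σ Y • proj f.toUF.ρ σ v := by
  cases f with
  | S F h' =>
    have h1 := ch_half (.S F h') trivial σ hX
    have h2 := ch_half (.S F h') trivial σ hY
    rw [h1, h2]
    congr 1
    exact ent_proj F σ (hX.commF F) (hY.commF F) (h 0) v
  | W F h' =>
    have h1 : nrW F σ (X, c) = nrW F σ (Y, c) := h 0
    rw [nrW_apply, nrW_apply] at h1
    have tX := ent_trace F (by norm_num) σ X
    have tY := ent_trace F (by norm_num) σ Y
    push_cast at tX tY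
    have h2 : ent F σ (X - tw F σ X • (1 : Module.End ℂ (κ → ℂ))) =
        ent F σ (Y - tw F σ Y • (1 : Module.End ℂ (κ → ℂ))) := by
      rw [map_sub, map_sub, map_smul, map_smul, ent_one]
      have h3 : ∀ Z : Module.End ℂ (κ → ℂ), (ent F σ Z).trace = 2 * tw F σ Z →
          ent F σ Z - tw F σ Z • (1 : Matrix (Fin 2) (Fin 2) ℂ) =
          (ent F σ Z - (((ent F σ Z).trace - c) / 2) • (1 : Matrix (Fin 2) (Fin 2) ℂ)) -
            (c / 2) • 1 := by
        intro Z hZ
        rw [hZ]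
        module
      rw [h3 X tX, h3 Y tY, h1]
    have hcX : F.Comm (X - tw F σ X • (1 : Module.End ℂ (κ → ℂ))) := fun x v => by
      rw [LinearMap.sub_apply, LinearMap.sub_apply, LinearMap.smul_apply, LinearMap.smul_apply,
        Module.End.one_apply, Module.End.one_apply, map_sub, map_smul, hX.commF F]
    have hcY : F.Comm (Y - tw F σ Y • (1 : Module.End ℂ (κ → ℂ))) := fun x v => by
      rw [LinearMap.sub_apply, LinearMap.sub_apply, LinearMap.smul_apply, LinearMap.smul_apply,
        Module.End.one_apply, Module.End.one_apply, map_sub, map_smul, hY.commF F]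
    exact ent_proj F σ hcX hcY h2 v
  | Q F =>
    have h1 := ch_half (.Q F) trivial σ hX
    have h2 := ch_half (.Q F) trivial σ hY
    rw [h1, h2]
    congr 1
    exact ent_proj F.toUF σ (hX.commF F.toUF) (hY.commF F.toUF)
      ((F.sp σ).uniq _ _ c (F.gso σ hX) (F.gso σ hY) h) v
  | R F => exact hf.elim
  | T F => exact hf.elim

lemma A_one (f : Fac5 P K) (hf : f.isP) (σ : K →+* ℂ) (ε : Fin 2) :
    f.A σ ε (1, 2) = 1 := by
  cases f with
  | S F h => exact ent_one F σ
  | W F h =>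
    show nrW F σ (1, 2) = 1
    rw [nrW_apply, ent_one, Matrix.trace_one]
    simp
  | Q F =>
    show (F.sp σ).a ε (ent F.toUF σ 1, 2) = 1
    rw [ent_one]
    exact a_one (F.sp σ) ε
  | R F => exact hf.elim
  | T F => exact hf.elim

lemma A_SW (f : Fac5 P K) (hf : f.isS ∨ f.isW) (σ : K →+* ℂ) (ε : Fin 2) :
    f.A σ ε = f.A σ 0 := by
  cases f with
  | S F h => rfl
  | W F h => rfl
  | Q F => rcases hf with hf | hf <;> exact hf.elim
  | R F => rcases hf with hf | hf <;> exact hf.elim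
  | T F => rcases hf with hf | hf <;> exact hf.elim

end Fac5

/-- symmetries with the same normalised action at a place have the same normalised action at the
conjugate place -/
lemma conj_place {r : ℕ} (F : UF P K r) (σ : K →+* ℂ) {X Y : Module.End ℂ (κ → ℂ)} {c d : ℂ}
    (hX : Sym P X c) (hY : Sym P Y d) (a : ℂ)
    (h : ∀ v, X (proj F.ρ σ v) - Y (proj F.ρ σ v) = a • proj F.ρ σ v) (v : κ → ℂ) :
    X (proj F.ρ (ComplexEmbedding.conjugate σ) v) - Y (proj F.ρ (ComplexEmbedding.conjugate σ) v) =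
      (c - d - a) • proj F.ρ (ComplexEmbedding.conjugate σ) v := by
  classical
  obtain ⟨w, hw⟩ : ∃ w, w = proj F.ρ (ComplexEmbedding.conjugate σ) v := ⟨_, rfl⟩
  rw [← hw]
  have hpw : proj F.ρ (ComplexEmbedding.conjugate σ) w = w := by
    rw [hw, ← Module.End.mul_apply, proj_mul_proj, if_pos rfl]
  rw [← sub_eq_zero]
  refine P.hψnd _ fun u => ?_
  rw [P.hψalt, neg_eq_zero]
  -- decompose `u`
  rw [sum_proj_apply F.ρ u, map_sum, LinearMap.sum_apply]
  refine Finset.sum_eq_zero fun τ _ => ?_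
  obtain ⟨z, hz⟩ : ∃ z, z = X w - Y w - (c - d - a) • w := ⟨_, rfl⟩
  have hzp : proj F.ρ (ComplexEmbedding.conjugate σ) z = z := by
    rw [hz, map_sub, map_sub, map_smul, hpw,
      ← comm_proj F.ρ X (fun x v => (hX.commF F) x v) (ComplexEmbedding.conjugate σ) w,
      ← comm_proj F.ρ Y (fun x v => (hY.commF F) x v) (ComplexEmbedding.conjugate σ) w, hpw]
  rw [← hz]
  by_cases hτ : τ = σ
  · subst hτ
    have e1 := hX.pol (proj F.ρ τ u) w
    have e2 := hY.pol (proj F.ρ τ u) w
    have e3 := congrArg (fun g => P.ψ g w) (h u)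
    simp only [map_sub, LinearMap.sub_apply, map_smul, LinearMap.smul_apply, smul_eq_mul] at e3
    rw [hz, map_sub, map_sub, map_smul, smul_eq_mul]
    linear_combination e1 - e2 - e3
  · rw [F.proj_eq τ u, ← hzp, F.proj_eq, map_sum]
    refine Finset.sum_eq_zero fun b' _ => ?_
    rw [map_sum, LinearMap.sum_apply]
    refine Finset.sum_eq_zero fun a' _ => ?_
    rw [map_smul, map_smul, LinearMap.smul_apply, F.psi_e, smul_zero, smul_zero]
    intro h
    apply hτ
    rw [← conj_conj τ, ← h, conj_conj]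

end single

end Pool.Agent.Helper8.E
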